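import Pool.Agent.H48.Q1.Ref

set_option autoImplicit false
open Finset

/-! The refined domain type. -/

namespace Pool.Agent.H48.Q1

open Pool.Agent.H75.Perc (dir dir_cases Bx mem_Bx inB)
open Pool.Agent.Q1.M4
open Pool.Agent.H49.Q1 (gcell gs mem_gs)

variable {I K : ℤ → ℤ} {Q : Finset Cell}

/-! ### Walks -/

lemma iter_fsd (hI : StrictMono I) (hK : StrictMono K) {s : Cell × ℤ} (hs : IsSide Q s) {j : ℕ}
    (hj : j < len I K s) : (nextSide (ref I K Q))^[j] (fsd I K s 0) = fsd I K s j := by
  induction j with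
  | zero => rfl
  | succ j ih =>
    rw [Function.iterate_succ_apply', ih (by omega), next_fsd hI hK hs hj]

lemma iter_len (hI : StrictMono I) (hK : StrictMono K) {s : Cell × ℤ} (hs : IsSide Q s) :
    (nextSide (ref I K Q))^[len I K s] (fsd I K s 0) = fsd I K (nextSide Q s) 0 := by
  have h0 := len_pos hI hK s
  obtain ⟨l, hl⟩ : ∃ l, len I K s = l + 1 := ⟨len I K s - 1, by omega⟩
  rw [hl, Function.iterate_succ_apply', iter_fsd hI hK hs (by omega), next_fsd_last hI hK hl.symm]

/-- fine vertex of a coarse vertex -/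
def vm (I K : ℤ → ℤ) (p : ℤ × ℤ) : ℤ × ℤ := (I p.1, K p.2)

lemma tail_fsd (I K : ℤ → ℤ) (s : Cell × ℤ) (j : ℕ) :
    tail (fsd I K s j) = vm I K (tail s) + (j : ℤ) • dir s.2 := by
  obtain ⟨⟨a, b⟩, k⟩ := s
  rcases fsd_cases I K a b k j with ⟨h, g, -, e, -⟩ | ⟨h, g, -, e, -⟩ | ⟨h, g, -, e, -⟩ |
    ⟨h, g, -, e, -⟩ <;>
  (unfold tail vm
   simp only [fsd_snd, h, e, g]
   norm_num
   try omega)

/-- the length of a side as a difference of fine vertices -/
lemma len_vm (hI : StrictMono I) (hK : StrictMono K) (s : Cell × ℤ) :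
    vm I K (head s) = vm I K (tail s) + (len I K s : ℤ) • dir s.2 := by
  obtain ⟨⟨a, b⟩, k⟩ := s
  have h1 : I a < I (a + 1) := hI (by omega)
  have h2 : K b < K (b + 1) := hK (by omega)
  unfold head
  rcases fsd_cases I K a b k 0 with ⟨h, g, -, -, e⟩ | ⟨h, g, -, -, e⟩ | ⟨h, g, -, -, e⟩ |
    ⟨h, g, -, -, e⟩ <;>
  (rw [e, g]
   unfold tail vm
   simp only [h]
   norm_num
   try omega)

end Pool.Agent.H48.Q1

namespace Pool.Agent.Q1.M4.PType

open Pool.Agent.H48.Q1
open Pool.Agent.H75.Perc (dir dir_cases Bx mem_Bx inB)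

variable {I K : ℤ → ℤ}

lemma isSide_side (P : PType) (n : ℕ) : IsSide P.Q (P.side n) := isSide_iter P.side0 n

lemma side_succ (P : PType) (n : ℕ) : P.side (n + 1) = nextSide P.Q (P.side n) :=
  Function.iterate_succ_apply' _ _ _

lemma vert_succ (P : PType) (n : ℕ) : P.vert (n + 1) = P.vert n + dir (P.side n).2 := by
  unfold vert
  rw [side_succ, head_eq_tail_next]
  rfl

lemma side_add_N (P : PType) (n : ℕ) :
    P.side (n + P.N) = ((P.side n).1, (P.side n).2 + 4) := by
  unfold side
  rw [Function.iterate_add_apply, P.period]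
  have h : Eqv (P.s0.1, P.s0.2 + 4) P.s0 := ⟨rfl, by simp⟩
  have := h.iter (Q := P.Q) n
  refine Prod.ext this.1 ?_
  have h2 := this.2
  simp only at h2 ⊢
  omega

/-- number of fine sides on the first `n` coarse sides -/
noncomputable def L (P : PType) (I K : ℤ → ℤ) (n : ℕ) : ℕ := ∑ r ∈ range n, len I K (P.side r)

@[simp] lemma L_zero (P : PType) : P.L I K 0 = 0 := by simp [L]

lemma L_succ (P : PType) (n : ℕ) : P.L I K (n + 1) = P.L I K n + len I K (P.side n) := by
  unfold L; rw [sum_range_succ]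

lemma L_strictMono (P : PType) (hI : StrictMono I) (hK : StrictMono K) :
    StrictMono (P.L I K) := by
  apply strictMono_nat_of_lt_succ
  intro n
  rw [L_succ]
  have := len_pos hI hK (P.side n)
  omega

lemma exists_loc (P : PType) (hI : StrictMono I) (hK : StrictMono K) (n' : ℕ) :
    ∃ n j, j < len I K (P.side n) ∧ n' = P.L I K n + j := by
  induction n' with
  | zero => exact ⟨0, 0, len_pos hI hK _, by simp⟩
  | succ n' ih =>
    obtain ⟨n, j, hj, e⟩ := ih
    by_cases h : j + 1 < len I K (P.side n)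
    · exact ⟨n, j + 1, h, by omega⟩
    · exact ⟨n + 1, 0, len_pos hI hK _, by rw [L_succ]; omega⟩

lemma loc_lt (P : PType) (hI : StrictMono I) (hK : StrictMono K) {n m j : ℕ}
    (hj : j < len I K (P.side n)) : P.L I K n + j < P.L I K m ↔ n < m := by
  have hm := P.L_strictMono hI hK
  constructor
  · intro h
    by_contra hn
    have := hm.monotone (not_lt.1 hn)
    omega
  · intro h
    have h1 := hm.monotone (show n + 1 ≤ m from h)
    rw [L_succ] at h1
    omega

lemma loc_uniq (P : PType) (hI : StrictMono I) (hK : StrictMono K) {n m j i : ℕ}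
    (hj : j < len I K (P.side n)) (hi : i < len I K (P.side m))
    (h : P.L I K n + j = P.L I K m + i) : n = m ∧ j = i := by
  have h1 := P.loc_lt hI hK hj (m := m + 1)
  have h2 := P.loc_lt hI hK hi (m := n + 1)
  rw [L_succ] at h1 h2
  have : n = m := by omega
  subst this
  exact ⟨rfl, by omega⟩

lemma iter_L (P : PType) (hI : StrictMono I) (hK : StrictMono K) (n : ℕ) :
    (nextSide (ref I K P.Q))^[P.L I K n] (fsd I K P.s0 0) = fsd I K (P.side n) 0 := by
  induction n with
  | zero => simp [side]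
  | succ n ih =>
    rw [L_succ, add_comm, Function.iterate_add_apply, ih, iter_len hI hK (P.isSide_side n),
      side_succ]

lemma iter_loc (P : PType) (hI : StrictMono I) (hK : StrictMono K) {n j : ℕ}
    (hj : j < len I K (P.side n)) :
    (nextSide (ref I K P.Q))^[P.L I K n + j] (fsd I K P.s0 0) = fsd I K (P.side n) j := by
  rw [add_comm, Function.iterate_add_apply, iter_L P hI hK n,
    iter_fsd hI hK (P.isSide_side n) hj]

/-- A fine side lies on a coarse side. -/
lemma exists_coarse {Q : Finset Cell} (hI : StrictMono I) (hK : StrictMono K) {t : Cell × ℤ}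
    (ht : IsSide (ref I K Q) t) : ∃ s : Cell × ℤ, IsSide Q s ∧ s.2 = t.2 ∧
      ∃ j < len I K s, fsd I K s j = t := by
  obtain ⟨⟨c, d⟩, k⟩ := t
  obtain ⟨h1, h2⟩ := ht
  rw [mem_ref hI hK] at h1 h2
  simp only at h1 h2
  obtain ⟨f1, f2⟩ := fl_spec hI c
  obtain ⟨g1, g2⟩ := fl_spec hK d
  have hco : co I K (c, d) = (H48.Q1.fl I c, H48.Q1.fl K d) := rfl
  rw [hco] at h1
  refine ⟨((H48.Q1.fl I c, H48.Q1.fl K d), k), ?_, rfl, ?_⟩
  · refine ⟨h1, ?_⟩
    simp only
    rcases dir_cases (k - 1) with ⟨a, e⟩ | ⟨a, e⟩ | ⟨a, e⟩ | ⟨a, e⟩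
    all_goals rw [e] at h2 ⊢
    · have : co I K ((c, d) + (1, 0)) = (H48.Q1.fl I (c + 1), H48.Q1.fl K d) := by simp [co]
      rw [this] at h2
      rcases fl_step hI c with h | h
      · rw [h] at h2; exact absurd h1 h2
      · rw [h] at h2; simpa using h2
    · have : co I K ((c, d) + (0, 1)) = (H48.Q1.fl I c, H48.Q1.fl K (d + 1)) := by simp [co]
      rw [this] at h2
      rcases fl_step hK d with h | h
      · rw [h] at h2; exact absurd h1 h2
      · rw [h] at h2; simpa using h2
    · have : co I K ((c, d) + (-1, 0)) = (H48.Q1.fl I (c - 1), H48.Q1.fl K d) := by simp [co, sub_eq_add_neg]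
      rw [this] at h2
      have h3 := fl_step hI (c - 1)
      rw [sub_add_cancel] at h3
      rcases h3 with h | h
      · rw [← h] at h2; exact absurd h1 h2
      · have : H48.Q1.fl I (c - 1) = H48.Q1.fl I c - 1 := by omega
        rw [this] at h2; simpa [sub_eq_add_neg] using h2
    · have : co I K ((c, d) + (0, -1)) = (H48.Q1.fl I c, H48.Q1.fl K (d - 1)) := by simp [co, sub_eq_add_neg]
      rw [this] at h2
      have h3 := fl_step hK (d - 1)
      rw [sub_add_cancel] at h3
      rcases h3 with h | h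
      · rw [← h] at h2; exact absurd h1 h2
      · have : H48.Q1.fl K (d - 1) = H48.Q1.fl K d - 1 := by omega
        rw [this] at h2; simpa [sub_eq_add_neg] using h2
  · -- the position on the side
    rcases dir_cases (k - 1) with ⟨a, e⟩ | ⟨a, e⟩ | ⟨a, e⟩ | ⟨a, e⟩
    all_goals rw [e] at h2
    · -- right side, direction up
      have hc : c + 1 = I (H48.Q1.fl I c + 1) := by
        by_contra hne
        apply h2
        have : co I K ((c, d) + (1, 0)) = (H48.Q1.fl I c, H48.Q1.fl K d) :=
          co_eq hI hK (by simp only [Prod.mk_add_mk]; omega) (by simp only [Prod.mk_add_mk]; omega)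
            (by simpa using g1) (by simpa using g2)
        rw [this]; exact h1
      rcases fsd_cases I K (H48.Q1.fl I c) (H48.Q1.fl K d) k (d - K (H48.Q1.fl K d)).toNat with
        ⟨h, -, -, e1, f⟩ | ⟨h, -, -, e1, f⟩ | ⟨h, -, -, e1, f⟩ | ⟨h, -, -, e1, f⟩ <;>
      first
      | (exfalso; omega)
      | exact ⟨(d - K (H48.Q1.fl K d)).toNat, by rw [f]; omega,
          Prod.ext (by rw [e1]; exact Prod.ext (by simp only; omega) (by simp only; omega)) rfl⟩
    · have hd : d + 1 = K (H48.Q1.fl K d + 1) := by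
        by_contra hne
        apply h2
        have : co I K ((c, d) + (0, 1)) = (H48.Q1.fl I c, H48.Q1.fl K d) :=
          co_eq hI hK (by simpa using f1) (by simpa using f2)
            (by simp only [Prod.mk_add_mk]; omega) (by simp only [Prod.mk_add_mk]; omega)
        rw [this]; exact h1
      rcases fsd_cases I K (H48.Q1.fl I c) (H48.Q1.fl K d) k (I (H48.Q1.fl I c + 1) - 1 - c).toNat with
        ⟨h, -, -, e1, f⟩ | ⟨h, -, -, e1, f⟩ | ⟨h, -, -, e1, f⟩ | ⟨h, -, -, e1, f⟩ <;>
      first
      | (exfalso; omega)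
      | exact ⟨(I (H48.Q1.fl I c + 1) - 1 - c).toNat, by rw [f]; omega,
          Prod.ext (by rw [e1]; exact Prod.ext (by simp only; omega) (by simp only; omega)) rfl⟩
    · have hc : c = I (H48.Q1.fl I c) := by
        by_contra hne
        apply h2
        have : co I K ((c, d) + (-1, 0)) = (H48.Q1.fl I c, H48.Q1.fl K d) :=
          co_eq hI hK (by simp only [Prod.mk_add_mk]; omega) (by simp only [Prod.mk_add_mk]; omega)
            (by simpa using g1) (by simpa using g2)
        rw [this]; exact h1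
      rcases fsd_cases I K (H48.Q1.fl I c) (H48.Q1.fl K d) k (K (H48.Q1.fl K d + 1) - 1 - d).toNat with
        ⟨h, -, -, e1, f⟩ | ⟨h, -, -, e1, f⟩ | ⟨h, -, -, e1, f⟩ | ⟨h, -, -, e1, f⟩ <;>
      first
      | (exfalso; omega)
      | exact ⟨(K (H48.Q1.fl K d + 1) - 1 - d).toNat, by rw [f]; omega,
          Prod.ext (by rw [e1]; exact Prod.ext (by simp only; omega) (by simp only; omega)) rfl⟩
    · have hd : d = K (H48.Q1.fl K d) := by
        by_contra hne
        apply h2
        have : co I K ((c, d) + (0, -1)) = (H48.Q1.fl I c, H48.Q1.fl K d) :=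
          co_eq hI hK (by simpa using f1) (by simpa using f2)
            (by simp only [Prod.mk_add_mk]; omega) (by simp only [Prod.mk_add_mk]; omega)
        rw [this]; exact h1
      rcases fsd_cases I K (H48.Q1.fl I c) (H48.Q1.fl K d) k (c - I (H48.Q1.fl I c)).toNat with
        ⟨h, -, -, e1, f⟩ | ⟨h, -, -, e1, f⟩ | ⟨h, -, -, e1, f⟩ | ⟨h, -, -, e1, f⟩ <;>
      first
      | (exfalso; omega)
      | exact ⟨(c - I (H48.Q1.fl I c)).toNat, by rw [f]; omega,
          Prod.ext (by rw [e1]; exact Prod.ext (by simp only; omega) (by simp only; omega)) rfl⟩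

/-- The refined domain type. -/
noncomputable def refine (P : PType) (hI : StrictMono I) (hK : StrictMono K) : PType where
  Q := ref I K P.Q
  good := good_ref hI hK P.good
  s0 := fsd I K P.s0 0
  N := P.L I K P.N
  m := P.L I K P.m
  hm0 := by have := P.L_strictMono hI hK P.hm0; simpa using this
  hmN := P.L_strictMono hI hK P.hmN
  side0 := isSide_fsd hI hK P.side0 (len_pos hI hK _)
  period := by
    rw [iter_L P hI hK]
    have h : P.side P.N = (P.s0.1, P.s0.2 + 4) := P.period
    rw [h]
    refine Prod.ext ?_ rfl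
    unfold fsd st
    simp
  all := by
    intro t ht
    obtain ⟨s, hs, hk, j, hj, e⟩ := exists_coarse hI hK ht
    obtain ⟨n, hn, h1, h2⟩ := P.all s hs
    have hE : Eqv (P.side n) s := ⟨h1, h2⟩
    have hl : len I K (P.side n) = len I K s := by
      have e1 : (P.side n).1 = s.1 := hE.1
      have e2 : (P.side n).2 % 2 = s.2 % 2 := by have := hE.2; omega
      unfold len
      rw [e1, e2]
    refine ⟨P.L I K n + j, (P.loc_lt hI hK (by omega)).2 hn, ?_, ?_⟩
    · rw [iter_loc P hI hK (by omega), ← e]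
      have e1 : (P.side n).1 = s.1 := hE.1
      have e2 : (P.side n).2 % 4 = s.2 % 4 := by have := hE.2; omega
      have e3 : dir (P.side n).2 = dir s.2 := dir_congr hE.2
      unfold fsd st
      simp only
      rw [e1, e2, e3]
    · rw [iter_loc P hI hK (by omega), ← e]
      exact hE.2
  inj := by
    intro n hn n' hn' h1 h2
    obtain ⟨a, j, hj, rfl⟩ := P.exists_loc hI hK n
    obtain ⟨b, i, hi, rfl⟩ := P.exists_loc hI hK n'
    rw [P.loc_lt hI hK hj] at hn
    rw [P.loc_lt hI hK hi] at hn'
    rw [iter_loc P hI hK hj, iter_loc P hI hK hi] at h1 h2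
    have h3 : (P.side a).1 = (P.side b).1 := by
      rw [← co_fsd hI hK hj, ← co_fsd hI hK hi, h1]
    have h4 : ((P.side a).2 - (P.side b).2) % 4 = 0 := h2
    have h5 : a = b := P.inj a hn b hn' h3 h4
    subst h5
    have h6 : j = i := by
      have h7 : (j : ℤ) • dir (P.side a).2 = (i : ℤ) • dir (P.side a).2 := by
        unfold fsd at h1
        exact add_left_cancel h1
      rcases dir_cases (P.side a).2 with ⟨-, e⟩ | ⟨-, e⟩ | ⟨-, e⟩ | ⟨-, e⟩ <;>
        rw [e] at h7 <;> simpa using h7
    rw [h6]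

@[simp] lemma refine_Q (P : PType) (hI : StrictMono I) (hK : StrictMono K) :
    (P.refine hI hK).Q = ref I K P.Q := rfl

@[simp] lemma refine_m (P : PType) (hI : StrictMono I) (hK : StrictMono K) :
    (P.refine hI hK).m = P.L I K P.m := rfl

@[simp] lemma refine_N (P : PType) (hI : StrictMono I) (hK : StrictMono K) :
    (P.refine hI hK).N = P.L I K P.N := rfl

lemma refine_side (P : PType) (hI : StrictMono I) (hK : StrictMono K) {n j : ℕ}
    (hj : j < len I K (P.side n)) :
    (P.refine hI hK).side (P.L I K n + j) = fsd I K (P.side n) j := iter_loc P hI hK hj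

lemma refine_side_zero (P : PType) (hI : StrictMono I) (hK : StrictMono K) (n : ℕ) :
    (P.refine hI hK).side (P.L I K n) = fsd I K (P.side n) 0 := iter_L P hI hK n

/-- coarse boundary vertices are fine boundary vertices -/
lemma refine_vert_zero (P : PType) (hI : StrictMono I) (hK : StrictMono K) (n : ℕ) :
    (P.refine hI hK).vert (P.L I K n) = vm I K (P.vert n) := by
  unfold vert
  rw [refine_side_zero, tail_fsd]
  simp

/-- fine boundary vertices on a coarse side -/
lemma refine_vert (P : PType) (hI : StrictMono I) (hK : StrictMono K) {n j : ℕ}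
    (hj : j ≤ len I K (P.side n)) :
    (P.refine hI hK).vert (P.L I K n + j) = vm I K (P.vert n) + (j : ℤ) • dir (P.side n).2 := by
  rcases lt_or_eq_of_le hj with h | h
  · unfold vert
    rw [P.refine_side hI hK h, tail_fsd]
  · rw [h, ← L_succ, refine_vert_zero, vert_succ]
    exact len_vm hI hK (P.side n)

/-- fine sides keep the lifted direction -/
lemma refine_dir (P : PType) (hI : StrictMono I) (hK : StrictMono K) {n j : ℕ}
    (hj : j < len I K (P.side n)) :
    ((P.refine hI hK).side (P.L I K n + j)).2 = (P.side n).2 := by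
  rw [P.refine_side hI hK hj]
  rfl

/-- new vertices are flat -/
lemma refine_flat (P : PType) (hI : StrictMono I) (hK : StrictMono K) {n j : ℕ}
    (hj : j + 1 < len I K (P.side n)) :
    ((P.refine hI hK).side (P.L I K n + j + 1)).2 =
      ((P.refine hI hK).side (P.L I K n + j)).2 := by
  rw [P.refine_dir hI hK (by omega : j < _), add_assoc, P.refine_dir hI hK hj]

/-- flat coarse vertices stay flat -/
lemma refine_flat' (P : PType) (hI : StrictMono I) (hK : StrictMono K) {n : ℕ} :
    ((P.refine hI hK).side (P.L I K (n + 1))).2 - ((P.refine hI hK).side (P.L I K (n + 1) - 1)).2 =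
      (P.side (n + 1)).2 - (P.side n).2 := by
  have h0 := len_pos hI hK (P.side n)
  have e : P.L I K (n + 1) - 1 = P.L I K n + (len I K (P.side n) - 1) := by
    rw [L_succ]; omega
  rw [e, P.refine_dir hI hK (by omega), P.refine_side_zero]
  rfl

end Pool.Agent.Q1.M4.PType
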