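import Pool.Agent.H48.Q1.Line

set_option autoImplicit false
open Finset Filter Topology

/-! Two dimensional forms of the refinement: new lines through given points (R2), meshes (R3). -/

namespace Pool.Agent.H48.Q1

open Pool.Agent.H75.Perc (dir dir_cases Pr)
open Pool.Agent.Q1.M4 Pool.Agent.Q1.M5

variable {I K : ℤ → ℤ}

/-! ### New vertices on sides -/

/-- a new vertical line on a horizontal side -/
lemma exists_new_h (P : PType) (hI : StrictMono I) (hK : StrictMono K) {n : ℕ} {c : ℤ}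
    (hk : (P.side n).2 % 2 = 0) (h1 : I (P.side n).1.1 < c) (h2 : c < I ((P.side n).1.1 + 1)) :
    ∃ j, 0 < j ∧ j < len I K (P.side n) ∧
      (P.refine hI hK).vert (P.L I K n + j) = (c, K (P.vert n).2) := by
  have hv : P.vert n = tail (P.side n) := rfl
  obtain ⟨⟨⟨a, b⟩, k⟩, hs⟩ : ∃ s, P.side n = s := ⟨_, rfl⟩
  rw [hs] at hk h1 h2 hv
  rw [hs]
  simp only at hk h1 h2
  rcases fsd_cases I K a b k 0 with ⟨h, g, -, -, e⟩ | ⟨h, g, -, -, e⟩ | ⟨h, g, -, -, e⟩ |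
    ⟨h, g, -, -, e⟩ <;> first | (exfalso; omega) | skip
  · have ht : tail ((a, b), k) = (a, b) := by unfold tail; simp only [h]; norm_num
    refine ⟨(c - I a).toNat, by omega, by rw [e]; omega, ?_⟩
    rw [P.refine_vert hI hK (by rw [hs, e]; omega), hs, hv, ht, g]
    unfold vm
    have : (((c - I a).toNat : ℕ) : ℤ) = c - I a := by omega
    rw [this]
    simp
  · have ht : tail ((a, b), k) = (a + 1, b + 1) := by unfold tail; simp only [h]; norm_num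
    refine ⟨(I (a + 1) - c).toNat, by omega, by rw [e]; omega, ?_⟩
    rw [P.refine_vert hI hK (by rw [hs, e]; omega), hs, hv, ht, g]
    unfold vm
    have : (((I (a + 1) - c).toNat : ℕ) : ℤ) = I (a + 1) - c := by omega
    rw [this]
    simp

/-- a new horizontal line on a vertical side -/
lemma exists_new_v (P : PType) (hI : StrictMono I) (hK : StrictMono K) {n : ℕ} {c : ℤ}
    (hk : (P.side n).2 % 2 = 1) (h1 : K (P.side n).1.2 < c) (h2 : c < K ((P.side n).1.2 + 1)) :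
    ∃ j, 0 < j ∧ j < len I K (P.side n) ∧
      (P.refine hI hK).vert (P.L I K n + j) = (I (P.vert n).1, c) := by
  have hv : P.vert n = tail (P.side n) := rfl
  obtain ⟨⟨⟨a, b⟩, k⟩, hs⟩ : ∃ s, P.side n = s := ⟨_, rfl⟩
  rw [hs] at hk h1 h2 hv
  rw [hs]
  simp only at hk h1 h2
  rcases fsd_cases I K a b k 0 with ⟨h, g, -, -, e⟩ | ⟨h, g, -, -, e⟩ | ⟨h, g, -, -, e⟩ |
    ⟨h, g, -, -, e⟩ <;> first | (exfalso; omega) | skip
  · have ht : tail ((a, b), k) = (a + 1, b) := by unfold tail; simp only [h]; norm_num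
    refine ⟨(c - K b).toNat, by omega, by rw [e]; omega, ?_⟩
    rw [P.refine_vert hI hK (by rw [hs, e]; omega), hs, hv, ht, g]
    unfold vm
    have : (((c - K b).toNat : ℕ) : ℤ) = c - K b := by omega
    rw [this]
    simp
  · have ht : tail ((a, b), k) = (a, b + 1) := by unfold tail; simp only [h]; norm_num
    refine ⟨(K (b + 1) - c).toNat, by omega, by rw [e]; omega, ?_⟩
    rw [P.refine_vert hI hK (by rw [hs, e]; omega), hs, hv, ht, g]
    unfold vm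
    have : (((K (b + 1) - c).toNat : ℕ) : ℤ) = K (b + 1) - c := by omega
    rw [this]
    simp

/-! ### Two dimensional insertion -/

/-- The data of a refinement of a pair of real grids. -/
structure Refi (x y x' y' : ℤ → ℝ) (I K : ℤ → ℤ) : Prop where
  mx : StrictMono x'
  my : StrictMono y'
  hI : StrictMono I
  hK : StrictMono K
  ex : ∀ i, x' (I i) = x i
  ey : ∀ i, y' (K i) = y i

/-- Lattice lines of a refinement. -/
structure RefA (I K : ℤ → ℤ) (X Y X' Y' : ℕ → ℤ → ℤ) : Prop where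
  eX : ∀ j i, X' j (I i) = X j i
  eY : ∀ j i, Y' j (K i) = Y j i

lemma RefA.cX {X Y X' Y' : ℕ → ℤ → ℤ} (h : RefA I K X Y X' Y') (j : ℕ) : X' j ∘ I = X j :=
  funext fun i => h.eX j i

lemma RefA.cY {X Y X' Y' : ℕ → ℤ → ℤ} (h : RefA I K X Y X' Y') (j : ℕ) : Y' j ∘ K = Y j :=
  funext fun i => h.eY j i

/-- **(R2)** New lines through finitely many reals, with prescribed lattice approximations. -/
theorem exists_refine {x y : ℤ → ℝ} (hx : StrictMono x) (hy : StrictMono y) (sx sy : Finset ℝ)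
    (hsx : ∀ z ∈ sx, ∃ p q, x p < z ∧ z < x q) (hsy : ∀ z ∈ sy, ∃ p q, y p < z ∧ z < y q) :
    ∃ (x' y' : ℤ → ℝ) (I K : ℤ → ℤ) (cx cy : ℝ → ℤ), Refi x y x' y' I K ∧
      (∀ z ∈ sx, x' (cx z) = z) ∧ (∀ z ∈ sy, y' (cy z) = z) ∧
      ∀ (R : ℕ → ℝ) (X Y : ℕ → ℤ → ℤ) (Zx Zy : ℝ → ℕ → ℤ), App x y R X Y →
        (∀ z ∈ sx, (∀ i, x i ≠ z) → Tendsto (fun j => (Zx z j : ℝ) / R j) atTop (𝓝 z)) →
        (∀ z ∈ sy, (∀ i, y i ≠ z) → Tendsto (fun j => (Zy z j : ℝ) / R j) atTop (𝓝 z)) →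
        ∃ X' Y' : ℕ → ℤ → ℤ, App x' y' R X' Y' ∧ RefA I K X Y X' Y' ∧
          (∀ z ∈ sx, (∀ i, x i ≠ z) → ∀ j, X' j (cx z) = Zx z j) ∧
          (∀ z ∈ sy, (∀ i, y i ≠ z) → ∀ j, Y' j (cy z) = Zy z j) := by
  obtain ⟨x', I, cx, a1, a2, a3, a4, -, a6⟩ := insert_lines hx sx hsx
  obtain ⟨y', K, cy, b1, b2, b3, b4, -, b6⟩ := insert_lines hy sy hsy
  refine ⟨x', y', I, K, cx, cy, ⟨a1, b1, a2, b2, a3, b3⟩, a4, b4, ?_⟩
  intro R X Y Zx Zy h hZx hZy
  obtain ⟨X', c1, c2, c3⟩ := a6 R X Zx (App.left h) hZx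
  obtain ⟨Y', d1, d2, d3⟩ := b6 R Y Zy (App.right h) hZy
  exact ⟨X', Y', c1.app d1, ⟨c2, d2⟩, c3, d3⟩

/-- the index of a new line inside a coarse interval -/
lemma Refi.between_x {x y x' y' : ℤ → ℝ} (h : Refi x y x' y' I K) {a c : ℤ} (h1 : x a < x' c)
    (h2 : x' c < x (a + 1)) : I a < c ∧ c < I (a + 1) := by
  rw [← h.ex] at h1 h2
  exact ⟨h.mx.lt_iff_lt.1 h1, h.mx.lt_iff_lt.1 h2⟩

lemma Refi.between_y {x y x' y' : ℤ → ℝ} (h : Refi x y x' y' I K) {a c : ℤ} (h1 : y a < y' c)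
    (h2 : y' c < y (a + 1)) : K a < c ∧ c < K (a + 1) := by
  rw [← h.ey] at h1 h2
  exact ⟨h.my.lt_iff_lt.1 h1, h.my.lt_iff_lt.1 h2⟩

/-- the type with two lattice grids -/
lemma refine_lv_h (P : PType) (hI : StrictMono I) (hK : StrictMono K) {n : ℕ} {c : ℤ}
    (hn : n < P.m) (hk : (P.side n).2 % 2 = 0) (h1 : I (P.side n).1.1 < c)
    (h2 : c < I ((P.side n).1.1 + 1)) :
    ∃ n', P.L I K n < n' ∧ n' < P.L I K (n + 1) ∧ FlatV (P.refine hI hK) n' ∧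
      ∀ X' Y' : ℤ → ℤ, lv (P.refine hI hK) X' Y' n' = (X' c, Y' (K (P.vert n).2)) := by
  obtain ⟨j, j1, j2, j3⟩ := exists_new_h P hI hK hk h1 h2
  refine ⟨P.L I K n + j, by omega, by rw [P.L_succ]; omega, flatV_new P hI hK hn j1 j2, ?_⟩
  intro X' Y'
  unfold lv
  rw [j3]
  rfl

lemma refine_lv_v (P : PType) (hI : StrictMono I) (hK : StrictMono K) {n : ℕ} {c : ℤ}
    (hn : n < P.m) (hk : (P.side n).2 % 2 = 1) (h1 : K (P.side n).1.2 < c)
    (h2 : c < K ((P.side n).1.2 + 1)) :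
    ∃ n', P.L I K n < n' ∧ n' < P.L I K (n + 1) ∧ FlatV (P.refine hI hK) n' ∧
      ∀ X' Y' : ℤ → ℤ, lv (P.refine hI hK) X' Y' n' = (X' (I (P.vert n).1), Y' c) := by
  obtain ⟨j, j1, j2, j3⟩ := exists_new_v P hI hK hk h1 h2
  refine ⟨P.L I K n + j, by omega, by rw [P.L_succ]; omega, flatV_new P hI hK hn j1 j2, ?_⟩
  intro X' Y'
  unfold lv
  rw [j3]
  rfl

/-! ### Transport along a refinement -/

section transport
variable {X Y X' Y' : ℕ → ℤ → ℤ}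

lemma RefA.EL (h : RefA I K X Y X' Y') (P : PType) (hI : StrictMono I) (hK : StrictMono K) {j : ℕ}
    (hX : StrictMono (X' j)) (hY : StrictMono (Y' j)) :
    Pool.Agent.Q1.M5.EL (P.refine hI hK) (X' j) (Y' j) = Pool.Agent.Q1.M5.EL P (X j) (Y j) := by
  rw [EL_ref P hI hK hX hY, h.cX, h.cY]

lemma RefA.WL (h : RefA I K X Y X' Y') (P : PType) (hI : StrictMono I) (hK : StrictMono K) {j : ℕ}
    (hX : StrictMono (X' j)) (hY : StrictMono (Y' j)) :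
    Pool.Agent.Q1.M5.WL (P.refine hI hK) (X' j) (Y' j) = Pool.Agent.Q1.M5.WL P (X j) (Y j) := by
  rw [WL_ref P hI hK hX hY, h.cX, h.cY]

lemma RefA.TV (h : RefA I K X Y X' Y') (P : PType) (hI : StrictMono I) (hK : StrictMono K) {j : ℕ}
    (hX : StrictMono (X' j)) (hY : StrictMono (Y' j)) (v : ℤ × ℤ) :
    Pool.Agent.Q1.M5.TV (P.refine hI hK) (X' j) (Y' j) v ↔ Pool.Agent.Q1.M5.TV P (X j) (Y j) v := by
  rw [TV_ref P hI hK hX hY, h.cX, h.cY]

lemma RefA.CT (h : RefA I K X Y X' Y') (P : PType) (hI : StrictMono I) (hK : StrictMono K) {j : ℕ}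
    (hX : StrictMono (X' j)) (hY : StrictMono (Y' j)) :
    Pool.Agent.Q1.M5.CT (P.refine hI hK) (X' j) (Y' j) = Pool.Agent.Q1.M5.CT P (X j) (Y j) := by
  rw [CT_ref_eq P hI hK hX hY, h.cX, h.cY]

lemma RefA.hh (h : RefA I K X Y X' Y') (P : PType) (hI : StrictMono I) (hK : StrictMono K) {j : ℕ}
    (hX : StrictMono (X' j)) (hY : StrictMono (Y' j)) :
    Pool.Agent.Q1.M5.hh (P.refine hI hK) (X' j) (Y' j) = Pool.Agent.Q1.M5.hh P (X j) (Y j) := by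
  rw [hh_ref P hI hK hX hY, h.cX, h.cY]

lemma RefA.CI (h : RefA I K X Y X' Y') (P : PType) (hI : StrictMono I) (hK : StrictMono K) {j : ℕ}
    (hX : StrictMono (X' j)) (hY : StrictMono (Y' j)) (n1 n2 : ℕ) :
    Pool.Agent.Q1.M5.CI (P.refine hI hK) (X' j) (Y' j) (P.L I K n1) (P.L I K n2) =
      Pool.Agent.Q1.M5.CI P (X j) (Y j) n1 n2 := by
  rw [CI_ref P hI hK hX hY, h.cX, h.cY]

lemma RefA.lv (h : RefA I K X Y X' Y') (P : PType) (hI : StrictMono I) (hK : StrictMono K)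
    (j n : ℕ) : Pool.Agent.Q1.M5.lv (P.refine hI hK) (X' j) (Y' j) (P.L I K n) = Pool.Agent.Q1.M5.lv P (X j) (Y j) n := by
  rw [lv_ref P hI hK, h.cX, h.cY]

end transport

/-! ### Meshes -/

/-- **(R3)** A refinement with mesh at most `η` on the polyomino; the coarse vertical lines have
fine indices divisible by 3 as far as the polyomino is concerned. -/
theorem exists_mesh_refine (P : PType) {x y : ℤ → ℝ} (hx : StrictMono x) (hy : StrictMono y)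
    {η : ℝ} (hη : 0 < η) :
    ∃ (x' y' : ℤ → ℝ) (I K : ℤ → ℤ), Refi x y x' y' I K ∧
      (∀ c ∈ ref I K P.Q, x' (c.1 + 1) - x' c.1 ≤ η ∧ y' (c.2 + 1) - y' c.2 ≤ η) ∧
      (∀ a b : ℤ, ¬ (3 ∣ a) → ((a - 1, b) ∈ ref I K P.Q ↔ (a, b) ∈ ref I K P.Q)) ∧
      (∀ a b : ℤ, ¬ (3 ∣ b) → ((a, b - 1) ∈ ref I K P.Q ↔ (a, b) ∈ ref I K P.Q)) ∧
      ∀ (R : ℕ → ℝ) (X Y : ℕ → ℤ → ℤ), App x y R X Y →
        ∃ X' Y' : ℕ → ℤ → ℤ, App x' y' R X' Y' ∧ RefA I K X Y X' Y' := by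
  -- bounds for the polyomino
  obtain ⟨p, q, hpq, hb⟩ : ∃ p q : ℤ, p ≤ q ∧ ∀ c ∈ P.Q, (p ≤ c.1 ∧ c.1 < q) ∧ (p ≤ c.2 ∧ c.2 < q) := by
    obtain ⟨B, hB⟩ : ∃ B : ℤ, ∀ c ∈ P.Q, |c.1| ≤ B ∧ |c.2| ≤ B := by
      refine ⟨∑ c ∈ P.Q, (|c.1| + |c.2|), fun c hc => ?_⟩
      have h1 : |c.1| + |c.2| ≤ ∑ c ∈ P.Q, (|c.1| + |c.2|) :=
        Finset.single_le_sum (f := fun c : Cell => |c.1| + |c.2|) (fun i _ => by positivity) hc
      have := abs_nonneg c.1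
      have := abs_nonneg c.2
      omega
    refine ⟨-|B| - 1, |B| + 1, by have := abs_nonneg B; omega, fun c hc => ?_⟩
    obtain ⟨h1, h2⟩ := hB c hc
    have h3 := le_abs_self B
    rw [abs_le] at h1 h2
    omega
  obtain ⟨x', I, a1, a2, a3, a4, a5, a6⟩ := exists_mesh hx hpq hη
  obtain ⟨y', K, b1, b2, b3, b4, b5, b6⟩ := exists_mesh hy hpq hη
  have key : ∀ J : ℤ → ℤ, StrictMono J → (∀ a, p ≤ a → a ≤ q → 3 ∣ J a) → ∀ a : ℤ, ¬ (3 ∣ a) →
      (p ≤ fl J (a - 1) ∧ fl J (a - 1) < q) ∨ (p ≤ fl J a ∧ fl J a < q) →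
      fl J (a - 1) = fl J a := by
    intro J hJ h3 a ha hr
    have h := fl_step hJ (a - 1)
    rw [sub_add_cancel] at h
    rcases h with h | h
    · exact h.symm
    · exfalso
      have h4 := fl_spec hJ a
      have h5 := fl_spec hJ (a - 1)
      rw [← h] at h5
      have : a = J (fl J a) := by omega
      apply ha
      rw [this]
      exact h3 _ (by omega) (by omega)
  refine ⟨x', y', I, K, ⟨a1, b1, a2, b2, a3, b3⟩, ?_, ?_, ?_, ?_⟩
  · intro c hc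
    obtain ⟨d, hd, h1, h2⟩ := mem_ref'.1 hc
    obtain ⟨⟨p1, q1⟩, p2, q2⟩ := hb d hd
    have m1 := a2.monotone p1
    have m2 := a2.monotone (show d.1 + 1 ≤ q by omega)
    have m3 := b2.monotone p2
    have m4 := b2.monotone (show d.2 + 1 ≤ q by omega)
    exact ⟨a4 c.1 (by omega) (by omega), b4 c.2 (by omega) (by omega)⟩
  · intro a b ha
    rw [mem_ref a2 b2, mem_ref a2 b2]
    unfold co
    simp only
    constructor
    · intro h
      obtain ⟨⟨p1, q1⟩, -⟩ := hb _ h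
      rw [← key I a2 a5 a ha (Or.inl ⟨p1, q1⟩)]; exact h
    · intro h
      obtain ⟨⟨p1, q1⟩, -⟩ := hb _ h
      rw [key I a2 a5 a ha (Or.inr ⟨p1, q1⟩)]; exact h
  · intro a b ha
    rw [mem_ref a2 b2, mem_ref a2 b2]
    unfold co
    simp only
    constructor
    · intro h
      obtain ⟨-, p1, q1⟩ := hb _ h
      rw [← key K b2 b5 b ha (Or.inl ⟨p1, q1⟩)]; exact h
    · intro h
      obtain ⟨-, p1, q1⟩ := hb _ h
      rw [key K b2 b5 b ha (Or.inr ⟨p1, q1⟩)]; exact h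
  · intro R X Y h
    obtain ⟨X', c1, c2⟩ := a6 R X (App.left h)
    obtain ⟨Y', d1, d2⟩ := b6 R Y (App.right h)
    exact ⟨X', Y', c1.app d1, ⟨c2, d2⟩⟩

end Pool.Agent.H48.Q1
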