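import Pool.Agent.H48.Q1.RefApp
import Pool.Agent.H4.Q1.LWalk

set_option autoImplicit false
open Finset Filter Topology

/-! Points on free sides become flat vertices of a refined type (form for C3, helper4). -/

namespace Pool.Agent.H48.Q1

open Pool.Agent.H75.Perc (dir dir_cases Pr)
open Pool.Agent.Q1.M4 Pool.Agent.Q1.M5
open Pool.Agent.H4.Q1 (bw)

/-- real length of a side -/
def rlen (x y : ℤ → ℝ) (s : Cell × ℤ) : ℝ :=
  if s.2 % 2 = 0 then x (s.1.1 + 1) - x s.1.1 else y (s.1.2 + 1) - y s.1.2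

/-- moving coordinate of the point of a side at arclength `t` -/
def rco (x y : ℤ → ℝ) (s : Cell × ℤ) (t : ℝ) : ℝ :=
  if s.2 % 4 = 0 then x s.1.1 + t else if s.2 % 4 = 1 then y s.1.2 + t
  else if s.2 % 4 = 2 then x (s.1.1 + 1) - t else y (s.1.2 + 1) - t

/-- moving lattice coordinate of the lattice point of a side at arclength `l` -/
def lco (X Y : ℤ → ℤ) (s : Cell × ℤ) (l : ℤ) : ℤ :=
  if s.2 % 4 = 0 then X s.1.1 + l else if s.2 % 4 = 1 then Y s.1.2 + l
  else if s.2 % 4 = 2 then X (s.1.1 + 1) - l else Y (s.1.2 + 1) - l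

lemma rco_even {x y : ℤ → ℝ} {s : Cell × ℤ} {t : ℝ} (h : s.2 % 2 = 0) (h0 : 0 < t)
    (h1 : t < rlen x y s) : x s.1.1 < rco x y s t ∧ rco x y s t < x (s.1.1 + 1) := by
  unfold rlen at h1
  rw [if_pos h] at h1
  unfold rco
  split_ifs
  · constructor <;> linarith
  · omega
  · constructor <;> linarith
  · omega

lemma rco_odd {x y : ℤ → ℝ} {s : Cell × ℤ} {t : ℝ} (h : s.2 % 2 = 1) (h0 : 0 < t)
    (h1 : t < rlen x y s) : y s.1.2 < rco x y s t ∧ rco x y s t < y (s.1.2 + 1) := by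
  unfold rlen at h1
  rw [if_neg (by omega)] at h1
  unfold rco
  split_ifs
  · omega
  · constructor <;> linarith
  · omega
  · constructor <;> linarith

lemma lco_lim {x y : ℤ → ℝ} {R : ℕ → ℝ} {X Y : ℕ → ℤ → ℤ} (h : App x y R X Y) (s : Cell × ℤ)
    {l : ℕ → ℤ} {t : ℝ} (hl : Tendsto (fun j => (l j : ℝ) / R j) atTop (𝓝 t)) :
    Tendsto (fun j => (lco (X j) (Y j) s (l j) : ℝ) / R j) atTop (𝓝 (rco x y s t)) := by
  unfold lco rco
  split_ifs
  · refine ((h.app.X_lim s.1.1).add hl).congr fun j => ?_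
    push_cast; ring
  · refine ((h.app.Y_lim s.1.2).add hl).congr fun j => ?_
    push_cast; ring
  · refine ((h.app.X_lim (s.1.1 + 1)).sub hl).congr fun j => ?_
    push_cast; ring
  · refine ((h.app.Y_lim (s.1.2 + 1)).sub hl).congr fun j => ?_
    push_cast; ring

lemma bw_even (X Y : ℤ → ℤ) {s : Cell × ℤ} (h : s.2 % 2 = 0) (l : ℤ) :
    bw X Y s l = (lco X Y s l, Y (tail s).2) := by
  obtain ⟨⟨a, b⟩, k⟩ := s
  unfold bw lco lpt tail
  simp only at h ⊢
  rcases dir_cases k with ⟨h', e⟩ | ⟨h', e⟩ | ⟨h', e⟩ | ⟨h', e⟩ <;>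
    first | (exfalso; omega) | (rw [e]; simp [h', sub_eq_add_neg])

lemma bw_odd (X Y : ℤ → ℤ) {s : Cell × ℤ} (h : s.2 % 2 = 1) (l : ℤ) :
    bw X Y s l = (X (tail s).1, lco X Y s l) := by
  obtain ⟨⟨a, b⟩, k⟩ := s
  unfold bw lco lpt tail
  simp only at h ⊢
  rcases dir_cases k with ⟨h', e⟩ | ⟨h', e⟩ | ⟨h', e⟩ | ⟨h', e⟩ <;>
    first | (exfalso; omega) | (rw [e]; simp [h', sub_eq_add_neg])

/-- **Insertion of points.** Finitely many points on free sides become flat vertices of a refined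
type with the same lattice domain. -/
theorem insert_points (P : PType) {x y : ℤ → ℝ} (hx : StrictMono x) (hy : StrictMono y) {k : ℕ}
    (n : Fin k → ℕ) (hn : ∀ i, n i < P.m) (t : Fin k → ℝ) (h0 : ∀ i, 0 < t i)
    (h1 : ∀ i, t i < rlen x y (P.side (n i)))
    (hne : ∀ i i', i ≠ i' → (P.side (n i)).2 % 2 = (P.side (n i')).2 % 2 →
      rco x y (P.side (n i)) (t i) ≠ rco x y (P.side (n i')) (t i')) :
    ∃ (P' : PType) (x' y' : ℤ → ℝ), StrictMono x' ∧ StrictMono y' ∧
      ∃ s : Fin k → ℕ, Function.Injective s ∧ (∀ i, FlatV P' (s i)) ∧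
        ∀ (R : ℕ → ℝ) (X Y : ℕ → ℤ → ℤ) (l : Fin k → ℕ → ℤ), App x y R X Y →
          (∀ i, Tendsto (fun j => (l i j : ℝ) / R j) atTop (𝓝 (t i))) →
          ∃ X' Y' : ℕ → ℤ → ℤ, App x' y' R X' Y' ∧ ∀ᶠ j in atTop,
            EL P' (X' j) (Y' j) = EL P (X j) (Y j) ∧
            (∀ v ω, CT P' (X' j) (Y' j) v ω ↔ CT P (X j) (Y j) v ω) ∧
            ∀ i, lv P' (X' j) (Y' j) (s i) = bw (X j) (Y j) (P.side (n i)) (l i j) := by
  classical
  set S : Fin k → Cell × ℤ := fun i => P.side (n i) with hS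
  set r : Fin k → ℝ := fun i => rco x y (S i) (t i) with hr
  have hpar : ∀ i, (S i).2 % 2 = 0 ∨ (S i).2 % 2 = 1 := fun i => by omega
  have he : ∀ i, (S i).2 % 2 = 0 → x (S i).1.1 < r i ∧ r i < x ((S i).1.1 + 1) :=
    fun i h => rco_even h (h0 i) (h1 i)
  have ho : ∀ i, (S i).2 % 2 = 1 → y (S i).1.2 < r i ∧ r i < y ((S i).1.2 + 1) :=
    fun i h => rco_odd h (h0 i) (h1 i)
  set sx : Finset ℝ := (univ.filter (fun i => (S i).2 % 2 = 0)).image r with hsx
  set sy : Finset ℝ := (univ.filter (fun i => (S i).2 % 2 = 1)).image r with hsy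
  have mx : ∀ i, (S i).2 % 2 = 0 → r i ∈ sx := fun i h =>
    mem_image.2 ⟨i, mem_filter.2 ⟨mem_univ _, h⟩, rfl⟩
  have my : ∀ i, (S i).2 % 2 = 1 → r i ∈ sy := fun i h =>
    mem_image.2 ⟨i, mem_filter.2 ⟨mem_univ _, h⟩, rfl⟩
  obtain ⟨x', y', I, K, cx, cy, hR, e1, e2, hL⟩ := exists_refine hx hy sx sy
    (by
      intro z hz
      obtain ⟨i, hi, rfl⟩ := mem_image.1 hz
      rw [mem_filter] at hi
      exact ⟨_, _, he i hi.2⟩)
    (by
      intro z hz
      obtain ⟨i, hi, rfl⟩ := mem_image.1 hz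
      rw [mem_filter] at hi
      exact ⟨_, _, ho i hi.2⟩)
  -- the new reals are not lines
  have nx : ∀ i, (S i).2 % 2 = 0 → ∀ a, x a ≠ r i := by
    intro i h a ha
    obtain ⟨a1, a2⟩ := he i h
    rw [← ha, hx.lt_iff_lt] at a1 a2
    omega
  have ny : ∀ i, (S i).2 % 2 = 1 → ∀ a, y a ≠ r i := by
    intro i h a ha
    obtain ⟨a1, a2⟩ := ho i h
    rw [← ha, hy.lt_iff_lt] at a1 a2
    omega
  -- the new vertices
  have hv : ∀ i, ∃ n', P.L I K (n i) < n' ∧ n' < P.L I K (n i + 1) ∧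
      FlatV (P.refine hR.hI hR.hK) n' ∧ ∀ X' Y' : ℤ → ℤ, lv (P.refine hR.hI hR.hK) X' Y' n' =
        if (S i).2 % 2 = 0 then (X' (cx (r i)), Y' (K (P.vert (n i)).2))
        else (X' (I (P.vert (n i)).1), Y' (cy (r i))) := by
    intro i
    rcases hpar i with h | h
    · have hb := hR.between_x (a := (S i).1.1) (c := cx (r i)) (by rw [e1 _ (mx i h)]; exact (he i h).1)
        (by rw [e1 _ (mx i h)]; exact (he i h).2)
      obtain ⟨n', a1, a2, a3, a4⟩ := refine_lv_h P hR.hI hR.hK (hn i) h hb.1 hb.2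
      exact ⟨n', a1, a2, a3, fun X' Y' => by rw [a4, if_pos h]⟩
    · have hb := hR.between_y (a := (S i).1.2) (c := cy (r i)) (by rw [e2 _ (my i h)]; exact (ho i h).1)
        (by rw [e2 _ (my i h)]; exact (ho i h).2)
      obtain ⟨n', a1, a2, a3, a4⟩ := refine_lv_v P hR.hI hR.hK (hn i) h hb.1 hb.2
      exact ⟨n', a1, a2, a3, fun X' Y' => by rw [a4, if_neg (by omega)]⟩
  choose s s1 s2 s3 s4 using hv
  refine ⟨P.refine hR.hI hR.hK, x', y', hR.mx, hR.my, s, ?_, s3, ?_⟩
  · intro i i' hii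
    by_contra hne'
    have hLm := P.L_strictMono hR.hI hR.hK
    have hnn : n i = n i' := by
      rcases lt_trichotomy (n i) (n i') with h | h | h
      · have := hLm.monotone (show n i + 1 ≤ n i' from h)
        have := s2 i; have := s1 i'; omega
      · exact h
      · have := hLm.monotone (show n i' + 1 ≤ n i from h)
        have := s2 i'; have := s1 i; omega
    have hSS : S i = S i' := by simp only [hS, hnn]
    have h5 := hne i i' hne' (by rw [hnn])
    apply h5
    have a1 := s4 i id id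
    have a2 := s4 i' id id
    rw [hii, a2, ← hSS, ← hnn] at a1
    rcases hpar i with h | h
    · rw [if_pos h, if_pos h] at a1
      have : cx (r i') = cx (r i) := congrArg Prod.fst a1
      have h6 := e1 _ (mx i h)
      have h7 := e1 _ (mx i' (hSS ▸ h))
      rw [this] at h7
      exact h6.symm.trans h7
    · rw [if_neg (by omega), if_neg (by omega)] at a1
      have : cy (r i') = cy (r i) := congrArg Prod.snd a1
      have h6 := e2 _ (my i h)
      have h7 := e2 _ (my i' (hSS ▸ h))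
      rw [this] at h7
      exact h6.symm.trans h7
  · intro R X Y l hA hl
    -- the lattice lines through the points
    have uq : ∀ i i', (S i).2 % 2 = (S i').2 % 2 → r i = r i' → i = i' := by
      intro i i' h h'
      by_contra hne'
      exact hne i i' hne' h h'
    let Zx : ℝ → ℕ → ℤ := fun z j => if h : ∃ i, (S i).2 % 2 = 0 ∧ r i = z then
      lco (X j) (Y j) (S h.choose) (l h.choose j) else 0
    let Zy : ℝ → ℕ → ℤ := fun z j => if h : ∃ i, (S i).2 % 2 = 1 ∧ r i = z then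
      lco (X j) (Y j) (S h.choose) (l h.choose j) else 0
    have ex : ∀ i, (S i).2 % 2 = 0 → ∀ j, Zx (r i) j = lco (X j) (Y j) (S i) (l i j) := by
      intro i h j
      have hex : ∃ i', (S i').2 % 2 = 0 ∧ r i' = r i := ⟨i, h, rfl⟩
      have : hex.choose = i := uq _ _ (by rw [hex.choose_spec.1, h]) hex.choose_spec.2
      simp only [Zx]
      rw [dif_pos hex, this]
    have ey : ∀ i, (S i).2 % 2 = 1 → ∀ j, Zy (r i) j = lco (X j) (Y j) (S i) (l i j) := by
      intro i h j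
      have hex : ∃ i', (S i').2 % 2 = 1 ∧ r i' = r i := ⟨i, h, rfl⟩
      have : hex.choose = i := uq _ _ (by rw [hex.choose_spec.1, h]) hex.choose_spec.2
      simp only [Zy]
      rw [dif_pos hex, this]
    obtain ⟨X', Y', b1, b2, b3, b4⟩ := hL R X Y Zx Zy hA
      (by
        intro z hz _
        obtain ⟨i, hi, rfl⟩ := mem_image.1 hz
        rw [mem_filter] at hi
        simp only [ex i hi.2]
        exact lco_lim hA (S i) (hl i))
      (by
        intro z hz _
        obtain ⟨i, hi, rfl⟩ := mem_image.1 hz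
        rw [mem_filter] at hi
        simp only [ey i hi.2]
        exact lco_lim hA (S i) (hl i))
    refine ⟨X', Y', b1, ?_⟩
    filter_upwards [b1.mono] with j hj
    refine ⟨b2.EL P hR.hI hR.hK hj.1 hj.2, ?_, ?_⟩
    · intro v ω
      rw [b2.CT P hR.hI hR.hK hj.1 hj.2]
    · intro i
      rw [s4 i]
      rcases hpar i with h | h
      · rw [if_pos h, b3 _ (mx i h) (nx i h), ex i h, b2.eY, bw_even _ _ h]
        rfl
      · rw [if_neg (by omega), b4 _ (my i h) (ny i h), ey i h, b2.eX, bw_odd _ _ h]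
        rfl

end Pool.Agent.H48.Q1
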