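import Pool.Agent.H48.Q1.RefApp
import Pool.Agent.H44.Q1.C2

set_option autoImplicit false
open Finset Filter Topology

/-! `StREF` of helper44's C2. -/

namespace Pool.Agent.H48.Q1

open Pool.Agent.Q1.M4 Pool.Agent.Q1.M5

variable {I K : ℤ → ℤ}

lemma side_fsd_cell (hI : StrictMono I) (hK : StrictMono K) {s : Cell × ℤ} {j : ℕ}
    (hj : j < len I K s) :
    (I s.1.1 ≤ (fsd I K s j).1.1 ∧ (fsd I K s j).1.1 < I (s.1.1 + 1)) ∧
    (K s.1.2 ≤ (fsd I K s j).1.2 ∧ (fsd I K s j).1.2 < K (s.1.2 + 1)) := by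
  have h := co_fsd hI hK hj
  have h1 := fl_spec hI (fsd I K s j).1.1
  have h2 := fl_spec hK (fsd I K s j).1.2
  have e1 : fl I (fsd I K s j).1.1 = s.1.1 := congrArg Prod.fst h
  have e2 : fl K (fsd I K s j).1.2 = s.1.2 := congrArg Prod.snd h
  rw [e1] at h1
  rw [e2] at h2
  exact ⟨h1, h2⟩

/-- the mesh theorem with a window of fine indices divisible by 3 around the polyomino -/
theorem exists_mesh_window (Q : Finset Cell) {x y : ℤ → ℝ} (hx : StrictMono x)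
    (hy : StrictMono y) {η : ℝ} (hη : 0 < η) (w : ℤ) :
    ∃ (x' y' : ℤ → ℝ) (I K : ℤ → ℤ), Refi x y x' y' I K ∧
      (∀ c ∈ ref I K Q, x' (c.1 + 1) - x' c.1 ≤ η ∧ y' (c.2 + 1) - y' c.2 ≤ η) ∧
      (∀ c ∈ Q, ∀ a, |a - c.1| ≤ w → I a % 3 = 0) ∧
      (∀ c ∈ Q, ∀ a, |a - c.2| ≤ w → K a % 3 = 0) ∧
      ∀ (R : ℕ → ℝ) (X Y : ℕ → ℤ → ℤ), App x y R X Y →
        ∃ X' Y' : ℕ → ℤ → ℤ, App x' y' R X' Y' ∧ RefA I K X Y X' Y' := by
  obtain ⟨p, q, hpq, hb⟩ : ∃ p q : ℤ, p ≤ q ∧ ∀ c ∈ Q,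
      (p + |w| ≤ c.1 ∧ c.1 + |w| < q) ∧ (p + |w| ≤ c.2 ∧ c.2 + |w| < q) := by
    obtain ⟨B, hB⟩ : ∃ B : ℤ, ∀ c ∈ Q, |c.1| ≤ B ∧ |c.2| ≤ B := by
      refine ⟨∑ c ∈ Q, (|c.1| + |c.2|), fun c hc => ?_⟩
      have h1 : |c.1| + |c.2| ≤ ∑ c ∈ Q, (|c.1| + |c.2|) :=
        Finset.single_le_sum (f := fun c : Cell => |c.1| + |c.2|) (fun i _ => by positivity) hc
      have := abs_nonneg c.1
      have := abs_nonneg c.2
      omega
    refine ⟨-|B| - 1 - |w|, |B| + 1 + |w|, by have := abs_nonneg B; have := abs_nonneg w; omega,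
      fun c hc => ?_⟩
    obtain ⟨h1, h2⟩ := hB c hc
    have h3 := le_abs_self B
    rw [abs_le] at h1 h2
    omega
  obtain ⟨x', I, a1, a2, a3, a4, a5, a6⟩ := exists_mesh hx hpq hη
  obtain ⟨y', K, b1, b2, b3, b4, b5, b6⟩ := exists_mesh hy hpq hη
  have hw := abs_nonneg w
  have hw' := le_abs_self w
  refine ⟨x', y', I, K, ⟨a1, b1, a2, b2, a3, b3⟩, ?_, ?_, ?_, ?_⟩
  · intro c hc
    obtain ⟨d, hd, h1, h2⟩ := mem_ref'.1 hc
    obtain ⟨⟨p1, q1⟩, p2, q2⟩ := hb d hd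
    have m1 := a2.monotone (show p ≤ d.1 by omega)
    have m2 := a2.monotone (show d.1 + 1 ≤ q by omega)
    have m3 := b2.monotone (show p ≤ d.2 by omega)
    have m4 := b2.monotone (show d.2 + 1 ≤ q by omega)
    exact ⟨a4 c.1 (by omega) (by omega), b4 c.2 (by omega) (by omega)⟩
  · intro c hc a ha
    obtain ⟨⟨p1, q1⟩, p2, q2⟩ := hb c hc
    rw [abs_le] at ha
    have := a5 a (by omega) (by omega)
    omega
  · intro c hc a ha
    obtain ⟨⟨p1, q1⟩, p2, q2⟩ := hb c hc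
    rw [abs_le] at ha
    have := b5 a (by omega) (by omega)
    omega
  · intro R X Y h
    obtain ⟨X', c1, c2⟩ := a6 R X (App.left h)
    obtain ⟨Y', d1, d2⟩ := b6 R Y (App.right h)
    exact ⟨X', Y', c1.app d1, ⟨c2, d2⟩⟩

/-- all fields of helper44's `Refi` except `hi3` -/
theorem refi_fields (P : PType) (hI : StrictMono I) (hK : StrictMono K) :
    (∀ d : Cell, d ∈ (P.refine hI hK).Q ↔ ∃ c ∈ P.Q, (I c.1 ≤ d.1 ∧ d.1 < I (c.1 + 1)) ∧
      (K c.2 ≤ d.2 ∧ d.2 < K (c.2 + 1))) ∧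
    P.L I K 0 = 0 ∧ P.L I K P.m = (P.refine hI hK).m ∧ P.L I K P.N = (P.refine hI hK).N ∧
    (∀ n, (P.refine hI hK).vert (P.L I K n) = (I (P.vert n).1, K (P.vert n).2)) ∧
    (∀ n n', P.L I K n ≤ n' → n' < P.L I K (n + 1) →
      ((P.refine hI hK).side n').2 = (P.side n).2) ∧
    (∀ n n', P.L I K n ≤ n' → n' < P.L I K (n + 1) →
      (I (P.side n).1.1 ≤ ((P.refine hI hK).side n').1.1 ∧
        ((P.refine hI hK).side n').1.1 < I ((P.side n).1.1 + 1)) ∧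
      (K (P.side n).1.2 ≤ ((P.refine hI hK).side n').1.2 ∧
        ((P.refine hI hK).side n').1.2 < K ((P.side n).1.2 + 1))) := by
  refine ⟨fun d => mem_ref', P.L_zero, rfl, rfl, fun n => P.refine_vert_zero hI hK n, ?_, ?_⟩
  · intro n n' h1 h2
    rw [P.L_succ] at h2
    obtain ⟨j, rfl⟩ : ∃ j, n' = P.L I K n + j := ⟨n' - P.L I K n, by omega⟩
    exact P.refine_dir hI hK (by omega)
  · intro n n' h1 h2
    rw [P.L_succ] at h2
    obtain ⟨j, rfl⟩ : ∃ j, n' = P.L I K n + j := ⟨n' - P.L I K n, by omega⟩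
    rw [P.refine_side hI hK (by omega)]
    exact side_fsd_cell hI hK (by omega)

/-- **(REF)** of C2. -/
theorem stREF : H44.Q1.StREF := by
  intro P x y hx hy η hη
  obtain ⟨x', y', I, K, h, h1, h2, h3, h4⟩ := exists_mesh_window P.Q hx hy hη 3
  obtain ⟨f1, f2, f3, f4, f5, f6, f7⟩ := refi_fields P h.hI h.hK
  refine ⟨P.refine h.hI h.hK, I, K, P.L I K, x', y', ⟨h.hI, h2, h.hK, P.L_strictMono h.hI h.hK,
    f1, f2, f3, f4, f5, f6, f7, fun X Y hX hY => EL_ref P h.hI h.hK hX hY,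
    fun X Y hX hY => WL_ref P h.hI h.hK hX hY,
    fun X Y hX hY v => TV_ref P h.hI h.hK hX hY v⟩, h.mx, h.my, funext fun a => (h.ex a).symm,
    funext fun a => (h.ey a).symm, fun c hc => h1 c ?_, ?_⟩
  · exact hc
  · intro R X Y hA
    obtain ⟨X', Y', a1, a2⟩ := h4 R X Y hA
    exact ⟨X', Y', a1, Eventually.of_forall fun j => ⟨(a2.cX j).symm, (a2.cY j).symm⟩⟩

end Pool.Agent.H48.Q1
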