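import Pool.Agent.H48.Q1.RefDom

set_option autoImplicit false
open Finset Filter Topology

/-! Refinement of grid lines: insertion of finitely many new lines with prescribed lattice
approximations (R2), fine meshes by interpolation (R3). -/

namespace Pool.Agent.H48.Q1

open Pool.Agent.Q1.M4 Pool.Agent.Q1.M5

/-- Approximation of one family of lines. -/
structure LApp (x : ℤ → ℝ) (R : ℕ → ℝ) (X : ℕ → ℤ → ℤ) : Prop where
  R_top : Tendsto R atTop atTop
  lim : ∀ i, Tendsto (fun j => (X j i : ℝ) / R j) atTop (𝓝 (x i))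
  mono : ∀ᶠ j in atTop, StrictMono (X j)

lemma App.left {x y : ℤ → ℝ} {R : ℕ → ℝ} {X Y : ℕ → ℤ → ℤ} (h : App x y R X Y) : LApp x R X :=
  ⟨h.app.R_top, h.app.X_lim, h.mono.mono fun _ h => h.1⟩

lemma App.right {x y : ℤ → ℝ} {R : ℕ → ℝ} {X Y : ℕ → ℤ → ℤ} (h : App x y R X Y) : LApp y R Y :=
  ⟨h.app.R_top, h.app.Y_lim, h.mono.mono fun _ h => h.2⟩

lemma LApp.app {x y : ℤ → ℝ} {R : ℕ → ℝ} {X Y : ℕ → ℤ → ℤ} (h : LApp x R X) (h' : LApp y R Y) :
    App x y R X Y :=
  ⟨⟨h.R_top, h.lim, h'.lim⟩, h.mono.and h'.mono⟩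

/-- two sequences with different limits are far apart -/
lemma gap_top {R : ℕ → ℝ} (hR : Tendsto R atTop atTop) {A B : ℕ → ℤ} {a b : ℝ}
    (hA : Tendsto (fun j => (A j : ℝ) / R j) atTop (𝓝 a))
    (hB : Tendsto (fun j => (B j : ℝ) / R j) atTop (𝓝 b)) (hab : a < b) :
    Tendsto (fun j => ((B j - A j : ℤ) : ℝ)) atTop atTop := by
  have h1 : Tendsto (fun j => (B j : ℝ) / R j - (A j : ℝ) / R j) atTop (𝓝 (b - a)) := hB.sub hA
  have h2 := h1.pos_mul_atTop (sub_pos.2 hab) hR
  refine h2.congr' ?_
  filter_upwards [hR.eventually_gt_atTop 0] with j hj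
  push_cast
  field_simp

lemma gap_ev {R : ℕ → ℝ} (hR : Tendsto R atTop atTop) {A B : ℕ → ℤ} {a b : ℝ}
    (hA : Tendsto (fun j => (A j : ℝ) / R j) atTop (𝓝 a))
    (hB : Tendsto (fun j => (B j : ℝ) / R j) atTop (𝓝 b)) (hab : a < b) (n : ℤ) :
    ∀ᶠ j in atTop, A j + n ≤ B j := by
  filter_upwards [(gap_top hR hA hB hab).eventually_ge_atTop (n : ℝ)] with j hj
  have : n ≤ B j - A j := by exact_mod_cast hj
  omega

/-- the gaps of the lattice lines tend to infinity -/
lemma LApp.gap {x : ℤ → ℝ} {R : ℕ → ℝ} {X : ℕ → ℤ → ℤ} (h : LApp x R X) (hx : StrictMono x)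
    {p q : ℤ} (hpq : p < q) (n : ℤ) : ∀ᶠ j in atTop, X j p + n ≤ X j q :=
  gap_ev h.R_top (h.lim p) (h.lim q) (hx hpq) n

/-! ### Insertion of one line -/

/-- index map of the insertion of a line after the line `a` -/
def insI (a : ℤ) (c : ℤ) : ℤ := if c ≤ a then c else c + 1

lemma insI_mono (a : ℤ) : StrictMono (insI a) := by
  apply strictMono_int_of_lt_succ
  intro n
  unfold insI
  split_ifs <;> omega

/-- the lines with a new line `z` after the line `a` -/
def insL {α : Type} (a : ℤ) (z : α) (x : ℤ → α) (c : ℤ) : α :=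
  if c ≤ a then x c else if c = a + 1 then z else x (c - 1)

lemma insL_insI {α : Type} (a : ℤ) (z : α) (x : ℤ → α) (c : ℤ) :
    insL a z x (insI a c) = x c := by
  unfold insL insI
  by_cases h : c ≤ a
  · rw [if_pos h, if_pos h]
  · rw [if_neg h, if_neg (by omega), if_neg (by omega), add_sub_cancel_right]

lemma insL_new {α : Type} (a : ℤ) (z : α) (x : ℤ → α) : insL a z x (a + 1) = z := by
  unfold insL
  rw [if_neg (by omega), if_pos rfl]

lemma insL_mono {α : Type} [Preorder α] {a : ℤ} {z : α} {x : ℤ → α} (hx : StrictMono x)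
    (h1 : x a < z) (h2 : z < x (a + 1)) : StrictMono (insL a z x) := by
  apply strictMono_int_of_lt_succ
  intro n
  unfold insL
  rcases lt_trichotomy n a with h | h | h
  · rw [if_pos (by omega), if_pos (by omega)]
    exact hx (by omega)
  · subst h
    rw [if_pos le_rfl, if_neg (by omega), if_pos rfl]
    exact h1
  · rcases lt_or_eq_of_le (show a + 1 ≤ n by omega) with h' | h'
    · rw [if_neg (by omega), if_neg (by omega), if_neg (by omega), if_neg (by omega)]
      exact hx (by omega)
    · subst h'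
      rw [if_neg (by omega), if_pos rfl, if_neg (by omega), if_neg (by omega)]
      rw [add_sub_cancel_right]
      exact h2

/-- the interval of the grid containing a real between two lines -/
lemma exists_col {x : ℤ → ℝ} (hx : StrictMono x) {z : ℝ} {p q : ℤ} (hp : x p < z) (hq : z < x q)
    (hz : ∀ i, x i ≠ z) : ∃ a, x a < z ∧ z < x (a + 1) := by
  obtain ⟨a, ha, hmax⟩ := Int.exists_greatest_of_bdd (P := fun i => x i < z)
    ⟨q, fun i hi => by
      by_contra hlt
      exact absurd (hx (not_le.1 hlt)) (not_lt.2 (hi.trans hq).le)⟩ ⟨p, hp⟩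
  refine ⟨a, ha, ?_⟩
  rcases lt_trichotomy z (x (a + 1)) with h | h | h
  · exact h
  · exact absurd h.symm (hz _)
  · have := hmax (a + 1) h; omega

/-- **Insertion of finitely many lines.** `x'`, `I`: the new lines and the index map; `c z` is the
index of the line `z`. Lattice approximations of the old lines and of the new reals give lattice
approximations of the new lines. -/
theorem insert_lines {x : ℤ → ℝ} (hx : StrictMono x) (s : Finset ℝ)
    (hs : ∀ z ∈ s, ∃ p q, x p < z ∧ z < x q) :
    ∃ (x' : ℤ → ℝ) (I : ℤ → ℤ) (c : ℝ → ℤ), StrictMono x' ∧ StrictMono I ∧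
      (∀ i, x' (I i) = x i) ∧ (∀ z ∈ s, x' (c z) = z) ∧
      (∀ i, (∃ i', i = I i') ∨ ∃ z ∈ s, (∀ i', x i' ≠ z) ∧ i = c z) ∧
      ∀ (R : ℕ → ℝ) (X : ℕ → ℤ → ℤ) (Z : ℝ → ℕ → ℤ), LApp x R X →
        (∀ z ∈ s, (∀ i, x i ≠ z) → Tendsto (fun j => (Z z j : ℝ) / R j) atTop (𝓝 z)) →
        ∃ X' : ℕ → ℤ → ℤ, LApp x' R X' ∧ (∀ j i, X' j (I i) = X j i) ∧
          ∀ z ∈ s, (∀ i, x i ≠ z) → ∀ j, X' j (c z) = Z z j := by
  classical
  induction s using Finset.induction_on with
  | empty =>
    refine ⟨x, id, fun _ => 0, hx, strictMono_id, fun _ => rfl, by simp, fun i => Or.inl ⟨i, rfl⟩, ?_⟩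
    intro R X Z h _
    exact ⟨X, h, fun _ _ => rfl, by simp⟩
  | insert z s hz ih =>
    have hzn : ∀ w ∈ s, w ≠ z := fun w hw h => hz (h ▸ hw)
    obtain ⟨x1, I1, c1, m1, mI1, e1, f1, g1, L1⟩ := ih (fun w hw => hs w (mem_insert_of_mem hw))
    by_cases hzx : ∃ i, x1 i = z
    · -- the line is already there
      obtain ⟨i, hi⟩ := hzx
      refine ⟨x1, I1, Function.update c1 z i, m1, mI1, e1, ?_, ?_, ?_⟩
      · intro w hw
        rcases mem_insert.1 hw with rfl | hw
        · rw [Function.update_self]; exact hi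
        · rw [Function.update_of_ne (hzn _ hw)]
          exact f1 w hw
      · intro i'
        rcases g1 i' with h | ⟨w, hw, h1, h2⟩
        · exact Or.inl h
        · refine Or.inr ⟨w, mem_insert_of_mem hw, h1, ?_⟩
          rw [Function.update_of_ne (hzn _ hw)]
          exact h2
      · intro R X Z hX hZ
        obtain ⟨X1, a, b, d⟩ := L1 R X Z hX (fun w hw h => hZ w (mem_insert_of_mem hw) h)
        refine ⟨X1, a, b, ?_⟩
        intro w hw hne j
        rcases mem_insert.1 hw with rfl | hw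
        · exfalso
          rcases g1 i with ⟨i', h⟩ | ⟨w', hw', h1, h2⟩
          · exact hne i' (by rw [← e1, ← h]; exact hi)
          · apply hz
            have : x1 (c1 w') = w' := f1 w' hw'
            rw [← h2, hi] at this
            rw [this]; exact hw'
        · rw [Function.update_of_ne (hzn _ hw)]
          exact d w hw hne j
    · push Not at hzx
      obtain ⟨p, q, hp, hq⟩ := hs z (mem_insert_self _ _)
      rw [← e1] at hp hq
      obtain ⟨a, ha1, ha2⟩ := exists_col m1 hp hq hzx
      have hzne : ∀ i, x i ≠ z := fun i h => hzx (I1 i) (by rw [e1, h])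
      refine ⟨insL a z x1, insI a ∘ I1, Function.update (fun w => insI a (c1 w)) z (a + 1),
        insL_mono m1 ha1 ha2, (insI_mono a).comp mI1, ?_, ?_, ?_, ?_⟩
      · intro i
        simp only [Function.comp, insL_insI, e1]
      · intro w hw
        rcases mem_insert.1 hw with rfl | hw
        · rw [Function.update_self, insL_new]
        · rw [Function.update_of_ne (hzn _ hw), insL_insI, f1 w hw]
      · intro i
        rcases lt_trichotomy i (a + 1) with h | h | h
        · have hi : i = insI a i := by unfold insI; rw [if_pos (by omega)]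
          rcases g1 i with ⟨i', h'⟩ | ⟨w, hw, h1, h2⟩
          · left
            exact ⟨i', by simp only [Function.comp]; rw [← h', ← hi]⟩
          · right
            refine ⟨w, mem_insert_of_mem hw, h1, ?_⟩
            rw [Function.update_of_ne (hzn _ hw), ← h2]
            exact hi
        · right
          exact ⟨z, mem_insert_self _ _, hzne, by rw [Function.update_self]; exact h⟩
        · have hi : i = insI a (i - 1) := by unfold insI; rw [if_neg (by omega)]; ring
          rcases g1 (i - 1) with ⟨i', h'⟩ | ⟨w, hw, h1, h2⟩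
          · left
            exact ⟨i', by simp only [Function.comp]; rw [← h', ← hi]⟩
          · right
            refine ⟨w, mem_insert_of_mem hw, h1, ?_⟩
            rw [Function.update_of_ne (hzn _ hw), ← h2]
            exact hi
      · intro R X Z hX hZ
        obtain ⟨X1, h1, h2, h3⟩ := L1 R X Z hX (fun w hw h => hZ w (mem_insert_of_mem hw) h)
        have hZz := hZ z (mem_insert_self _ _) hzne
        refine ⟨fun j => insL a (Z z j) (X1 j), ⟨h1.R_top, ?_, ?_⟩, ?_, ?_⟩
        · intro i
          unfold insL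
          split_ifs
          · exact h1.lim i
          · exact hZz
          · exact h1.lim (i - 1)
        · filter_upwards [h1.mono, gap_ev h1.R_top (h1.lim a) hZz ha1 1,
            gap_ev h1.R_top hZz (h1.lim (a + 1)) ha2 1] with j j1 j2 j3
          exact insL_mono j1 (by omega) (by omega)
        · intro j i
          simp only [Function.comp, insL_insI, h2]
        · intro w hw hne j
          rcases mem_insert.1 hw with rfl | hw
          · rw [Function.update_self]
            exact insL_new _ _ _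
          · rw [Function.update_of_ne (hzn _ hw)]
            exact (insL_insI _ _ _ _).trans (h3 w hw hne j)

/-! ### Interpolation -/

/-- interpolated real lines -/
noncomputable def ipx (I : ℤ → ℤ) (x : ℤ → ℝ) (c : ℤ) : ℝ :=
  x (fl I c) + ((c - I (fl I c) : ℤ) : ℝ) / ((I (fl I c + 1) - I (fl I c) : ℤ) : ℝ) *
    (x (fl I c + 1) - x (fl I c))

/-- interpolated lattice lines -/
noncomputable def ipX (I : ℤ → ℤ) (X : ℤ → ℤ) (c : ℤ) : ℤ :=
  X (fl I c) + ((c - I (fl I c)) * (X (fl I c + 1) - X (fl I c))) / (I (fl I c + 1) - I (fl I c))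

variable {I : ℤ → ℤ}

lemma ipx_map (hI : StrictMono I) (x : ℤ → ℝ) (a : ℤ) : ipx I x (I a) = x a := by
  unfold ipx; rw [fl_map hI]; simp

lemma ipX_map (hI : StrictMono I) (X : ℤ → ℤ) (a : ℤ) : ipX I X (I a) = X a := by
  unfold ipX; rw [fl_map hI]; simp

/-- the gaps of the interpolated lines -/
lemma ipx_gap (hI : StrictMono I) (x : ℤ → ℝ) (c : ℤ) : ipx I x (c + 1) - ipx I x c =
    (x (fl I c + 1) - x (fl I c)) / ((I (fl I c + 1) - I (fl I c) : ℤ) : ℝ) := by
  have hN : (0 : ℝ) < ((I (fl I c + 1) - I (fl I c) : ℤ) : ℝ) := by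
    have : I (fl I c) < I (fl I c + 1) := hI (by omega)
    exact_mod_cast (by omega : 0 < I (fl I c + 1) - I (fl I c))
  have hI' := hI
  obtain ⟨h1, h2⟩ := fl_spec hI c
  rcases lt_or_ge (c + 1) (I (fl I c + 1)) with h | h
  · have e : fl I (c + 1) = fl I c := fl_eq hI (by omega) h
    unfold ipx
    rw [e]
    push_cast at hN ⊢
    field_simp
    ring
  · have hc : c + 1 = I (fl I c + 1) := by omega
    rw [hc, ipx_map hI]
    unfold ipx
    have hcc : (c : ℤ) - I (fl I c) = (I (fl I c + 1) - I (fl I c)) - 1 := by omega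
    rw [hcc]
    push_cast at hN ⊢
    field_simp
    ring

lemma ipx_mono (hI : StrictMono I) {x : ℤ → ℝ} (hx : StrictMono x) : StrictMono (ipx I x) := by
  apply strictMono_int_of_lt_succ
  intro c
  have h := ipx_gap hI x c
  have hN : (0 : ℝ) < ((I (fl I c + 1) - I (fl I c) : ℤ) : ℝ) := by
    have : I (fl I c) < I (fl I c + 1) := hI (by omega)
    exact_mod_cast (by omega : 0 < I (fl I c + 1) - I (fl I c))
  have h2 : 0 < x (fl I c + 1) - x (fl I c) := sub_pos.2 (hx (by omega))
  have := div_pos h2 hN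
  linarith

lemma ipX_mono (hI : StrictMono I) {X : ℤ → ℤ}
    (h : ∀ a, I (a + 1) - I a ≤ X (a + 1) - X a) : StrictMono (ipX I X) := by
  apply strictMono_int_of_lt_succ
  intro c
  obtain ⟨h1, h2⟩ := fl_spec hI c
  have hg := h (fl I c)
  have hN : 0 < I (fl I c + 1) - I (fl I c) := by
    have : I (fl I c) < I (fl I c + 1) := hI (by omega)
    omega
  rcases lt_or_ge (c + 1) (I (fl I c + 1)) with hc | hc
  · have e : fl I (c + 1) = fl I c := fl_eq hI (by omega) hc
    unfold ipX
    rw [e]
    set N := I (fl I c + 1) - I (fl I c)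
    set G := X (fl I c + 1) - X (fl I c)
    have e2 : (c + 1 - I (fl I c)) * G = (c - I (fl I c)) * G + G := by ring
    have e3 : (c - I (fl I c)) * G / N + 1 ≤ ((c - I (fl I c)) * G + G) / N := by
      rw [← Int.add_mul_ediv_right _ 1 hN.ne', one_mul]
      exact Int.ediv_le_ediv hN (by omega)
    rw [e2]
    omega
  · have hc' : c + 1 = I (fl I c + 1) := by omega
    rw [hc', ipX_map hI]
    unfold ipX
    set N := I (fl I c + 1) - I (fl I c) with hNd
    set G := X (fl I c + 1) - X (fl I c) with hGd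
    have e2 : (c - I (fl I c)) * G / N < G := by
      apply Int.ediv_lt_of_lt_mul hN
      have : c - I (fl I c) < N := by omega
      have hG : 0 < G := by omega
      nlinarith
    omega

lemma ipX_lim (hI : StrictMono I) {x : ℤ → ℝ} {R : ℕ → ℝ} {X : ℕ → ℤ → ℤ}
    (hR : Tendsto R atTop atTop)
    (hX : ∀ i, Tendsto (fun j => (X j i : ℝ) / R j) atTop (𝓝 (x i))) (c : ℤ) :
    Tendsto (fun j => (ipX I (X j) c : ℝ) / R j) atTop (𝓝 (ipx I x c)) := by
  set a := fl I c with ha
  set N := I (a + 1) - I a with hN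
  have hN0 : 0 < N := by
    have : I a < I (a + 1) := hI (by omega)
    omega
  have hNr : (0 : ℝ) < (N : ℝ) := by exact_mod_cast hN0
  set m := c - I a with hm
  have h1 : Tendsto (fun j => (X j a : ℝ) / R j + (m : ℝ) / N *
      ((X j (a + 1) : ℝ) / R j - (X j a : ℝ) / R j)) atTop (𝓝 (ipx I x c)) := by
    have := (hX a).add (((hX (a + 1)).sub (hX a)).const_mul ((m : ℝ) / N))
    exact this
  have h2 : Tendsto (fun j => 1 / R j) atTop (𝓝 0) := by
    simp only [one_div]
    exact hR.inv_tendsto_atTop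
  have key : ∀ᶠ j in atTop, |(ipX I (X j) c : ℝ) / R j - ((X j a : ℝ) / R j + (m : ℝ) / N *
      ((X j (a + 1) : ℝ) / R j - (X j a : ℝ) / R j))| ≤ 1 / R j := by
    filter_upwards [hR.eventually_gt_atTop 0] with j hj
    have e : (ipX I (X j) c : ℝ) = X j a + (((m * (X j (a + 1) - X j a)) / N : ℤ) : ℝ) := by
      unfold ipX
      push_cast
      rfl
    set T := m * (X j (a + 1) - X j a) with hT
    have b1 : ((T / N : ℤ) : ℝ) ≤ (T : ℝ) / N := by
      rw [le_div_iff₀ hNr]
      exact_mod_cast Int.ediv_mul_le T hN0.ne'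
    have b2 : (T : ℝ) / N < ((T / N : ℤ) : ℝ) + 1 := by
      rw [div_lt_iff₀ hNr]
      exact_mod_cast Int.lt_ediv_add_one_mul_self T hN0
    have e2 : (ipX I (X j) c : ℝ) / R j - ((X j a : ℝ) / R j + (m : ℝ) / N *
      ((X j (a + 1) : ℝ) / R j - (X j a : ℝ) / R j)) = (((T / N : ℤ) : ℝ) - (T : ℝ) / N) / R j := by
      rw [e, hT]
      push_cast
      field_simp
      ring
    rw [e2, abs_div, abs_of_pos hj, div_le_div_iff_of_pos_right hj, abs_le]
    constructor <;> linarith
  have h3 : Tendsto (fun j => (ipX I (X j) c : ℝ) / R j - ((X j a : ℝ) / R j + (m : ℝ) / N *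
      ((X j (a + 1) : ℝ) / R j - (X j a : ℝ) / R j))) atTop (𝓝 0) :=
    squeeze_zero_norm' (by simpa [Real.norm_eq_abs] using key) h2
  have h4 := h3.add h1
  simpa using h4

/-- **Interpolation**: `I` with gaps 1 outside a finite range. -/
theorem interp {x : ℤ → ℝ} (hx : StrictMono x) (hI : StrictMono I) {p q : ℤ}
    (hout : ∀ a, (a < p ∨ q ≤ a) → I (a + 1) = I a + 1) {R : ℕ → ℝ} {X : ℕ → ℤ → ℤ}
    (h : LApp x R X) : LApp (ipx I x) R (fun j => ipX I (X j)) := by
  refine ⟨h.R_top, fun c => ipX_lim hI h.R_top h.lim c, ?_⟩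
  have h1 : ∀ᶠ j in atTop, ∀ a ∈ Finset.Ico p q, X j a + (I (a + 1) - I a) ≤ X j (a + 1) := by
    rw [Filter.eventually_all_finset]
    intro a _
    exact h.gap hx (by omega) _
  filter_upwards [h.mono, h1] with j j1 j2
  apply ipX_mono hI
  intro a
  by_cases ha : a ∈ Finset.Ico p q
  · have := j2 a ha; omega
  · rw [Finset.mem_Ico] at ha
    have := hout a (by omega)
    have := j1 (show a < a + 1 by omega)
    omega

/-- index map of the subdivision of the intervals `p ≤ a < q` into `n` pieces, `I p = 0` -/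
def subI (p q n : ℤ) (a : ℤ) : ℤ :=
  if a ≤ p then a - p else if a ≤ q then n * (a - p) else n * (q - p) + (a - q)

lemma subI_mono {p q n : ℤ} (hpq : p ≤ q) (hn : 1 ≤ n) : StrictMono (subI p q n) := by
  apply strictMono_int_of_lt_succ
  intro a
  unfold subI
  have e : n * (a + 1 - p) = n * (a - p) + n := by ring
  split_ifs with h1 h2 h3 h4 h5 h6
  · omega
  · have : a = p := by omega
    subst this; simp; omega
  · have : a = p := by omega
    have : q = p := by omega
    subst this; subst this; simp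
  · omega
  · rw [e]; omega
  · have : a = q := by omega
    subst this; omega
  · omega
  · omega
  · omega

lemma subI_out {p q n : ℤ} (hpq : p ≤ q) (a : ℤ) (h : a < p ∨ q ≤ a) :
    subI p q n (a + 1) = subI p q n a + 1 := by
  unfold subI
  rcases h with h | h
  · rw [if_pos (by omega), if_pos (by omega)]; ring
  · rcases lt_or_eq_of_le h with h' | h'
    · rw [if_neg (by omega), if_neg (by omega), if_neg (by omega), if_neg (by omega)]; ring
    · subst h'
      rw [if_neg (by omega), if_neg (by omega)]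
      rcases lt_or_eq_of_le hpq with h2 | h2
      · rw [if_neg (by omega), if_pos le_rfl]; ring
      · subst h2; simp

lemma subI_in {p q n : ℤ} {a : ℤ} (h1 : p ≤ a) (h2 : a ≤ q) : subI p q n a = n * (a - p) := by
  unfold subI
  rcases eq_or_lt_of_le h1 with h | h
  · subst h; simp
  · rw [if_neg (by omega), if_pos h2]

/-- **(R3) Fine meshes.** -/
theorem exists_mesh {x : ℤ → ℝ} (hx : StrictMono x) {p q : ℤ} (hpq : p ≤ q) {η : ℝ} (hη : 0 < η) :
    ∃ (x' : ℤ → ℝ) (I : ℤ → ℤ), StrictMono x' ∧ StrictMono I ∧ (∀ i, x' (I i) = x i) ∧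
      (∀ c, I p ≤ c → c < I q → x' (c + 1) - x' c ≤ η) ∧ (∀ a, p ≤ a → a ≤ q → 3 ∣ I a) ∧
      ∀ (R : ℕ → ℝ) (X : ℕ → ℤ → ℤ), LApp x R X →
        ∃ X' : ℕ → ℤ → ℤ, LApp x' R X' ∧ ∀ j i, X' j (I i) = X j i := by
  obtain ⟨n, hn⟩ := exists_nat_gt ((x q - x p) / η)
  set n3 : ℤ := 3 * ((n : ℤ) + 1) with hn3
  have hI := subI_mono hpq (show 1 ≤ n3 by omega)
  refine ⟨ipx (subI p q n3) x, subI p q n3, ipx_mono hI hx, hI, fun i => ipx_map hI x i, ?_, ?_, ?_⟩
  · intro c h1 h2
    rw [ipx_gap hI]
    set a := fl (subI p q n3) c with ha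
    obtain ⟨f1, f2⟩ := fl_spec hI c
    rw [← ha] at f1 f2
    have a1 : p ≤ a := by
      by_contra hlt
      have := hI.monotone (show a + 1 ≤ p by omega)
      omega
    have a2 : a < q := by
      by_contra hlt
      have := hI.monotone (show q ≤ a by omega)
      omega
    rw [subI_in a1 a2.le, subI_in (by omega) (by omega : a + 1 ≤ q)]
    have e : (((n3 * (a + 1 - p) - n3 * (a - p) : ℤ)) : ℝ) = 3 * ((n : ℝ) + 1) := by
      rw [hn3]; push_cast; ring
    rw [e, div_le_iff₀ (by positivity)]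
    have h3 : x (a + 1) - x a ≤ x q - x p := by
      have := hx.monotone (show a + 1 ≤ q by omega)
      have := hx.monotone a1
      linarith
    rw [div_lt_iff₀ hη] at hn
    nlinarith
  · intro a h1 h2
    rw [subI_in h1 h2, hn3, mul_assoc]
    exact dvd_mul_right _ _
  · intro R X h
    exact ⟨fun j => ipX (subI p q n3) (X j), interp hx hI (subI_out hpq) h,
      fun j i => ipX_map hI (X j) i⟩

end Pool.Agent.H48.Q1
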