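import Mathlib
import Pool.Agent.Q1.M4.Data
import Pool.Agent.Q1.M4.Walk
import Pool.Agent.H5.Q1.Grid
import Pool.Agent.H49.Q1.Grid

set_option autoImplicit false
open Finset

/-! Refinement of grid types (module M5). Coarse lines are the fine lines with indices `I a`
(vertical) and `K b` (horizontal), `I` and `K` strictly monotone. `ref I K Q` is the same polyomino
in the fine grid; its boundary walk is the coarse boundary walk with every side cut into pieces. -/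

namespace Pool.Agent.H48.Q1

open Pool.Agent.H75.Perc (dir dir_cases Bx mem_Bx inB)
open Pool.Agent.Q1.M4
open Pool.Agent.H5.Q1 (ix ix_spec ix_eq ix_iff conn4_FS FS cellOf)
open Pool.Agent.H49.Q1 (gcell gs mem_gs)

/-! ### One coordinate -/

/-- The coarse index of a fine index: `I a ≤ c < I (a+1)`. -/
noncomputable def fl (I : ℤ → ℤ) (c : ℤ) : ℤ := ix I (c + 1)

lemma fl_spec {I : ℤ → ℤ} (hI : StrictMono I) (c : ℤ) :
    I (fl I c) ≤ c ∧ c < I (fl I c + 1) := by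
  have := ix_spec hI (c + 1)
  unfold fl
  omega

lemma fl_eq {I : ℤ → ℤ} (hI : StrictMono I) {c a : ℤ} (h1 : I a ≤ c) (h2 : c < I (a + 1)) :
    fl I c = a := ix_eq hI (by omega) (by omega)

lemma fl_iff {I : ℤ → ℤ} (hI : StrictMono I) {c a : ℤ} :
    fl I c = a ↔ I a ≤ c ∧ c < I (a + 1) :=
  ⟨fun h => h ▸ fl_spec hI c, fun h => fl_eq hI h.1 h.2⟩

lemma fl_map {I : ℤ → ℤ} (hI : StrictMono I) (a : ℤ) : fl I (I a) = a :=
  fl_eq hI le_rfl (hI (by omega))

lemma fl_step {I : ℤ → ℤ} (hI : StrictMono I) (c : ℤ) :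
    fl I (c + 1) = fl I c ∨ fl I (c + 1) = fl I c + 1 := by
  obtain ⟨h1, h2⟩ := fl_spec hI c
  rcases lt_or_ge (c + 1) (I (fl I c + 1)) with h | h
  · exact Or.inl (fl_eq hI (by omega) h)
  · have : I (fl I c + 1) < I (fl I c + 1 + 1) := hI (by omega)
    exact Or.inr (fl_eq hI h (by omega))

/-- The coarse cell of a fine cell. -/
noncomputable def co (I K : ℤ → ℤ) (c : Cell) : Cell := (fl I c.1, fl K c.2)

/-- The refined polyomino. -/
noncomputable def ref (I K : ℤ → ℤ) (Q : Finset Cell) : Finset Cell :=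
  Q.biUnion (fun c => Ico (I c.1) (I (c.1 + 1)) ×ˢ Ico (K c.2) (K (c.2 + 1)))

lemma mem_ref' {I K : ℤ → ℤ} {Q : Finset Cell} {c : Cell} : c ∈ ref I K Q ↔
    ∃ d ∈ Q, (I d.1 ≤ c.1 ∧ c.1 < I (d.1 + 1)) ∧ (K d.2 ≤ c.2 ∧ c.2 < K (d.2 + 1)) := by
  unfold ref
  simp only [mem_biUnion, mem_product, mem_Ico]

variable {I K : ℤ → ℤ} {Q : Finset Cell}

lemma mem_ref (hI : StrictMono I) (hK : StrictMono K) {c : Cell} :
    c ∈ ref I K Q ↔ co I K c ∈ Q := by
  rw [mem_ref']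
  constructor
  · rintro ⟨d, hd, h1, h2⟩
    have : co I K c = d := Prod.ext (fl_eq hI h1.1 h1.2) (fl_eq hK h2.1 h2.2)
    rw [this]; exact hd
  · intro h
    exact ⟨_, h, fl_spec hI _, fl_spec hK _⟩

lemma co_eq (hI : StrictMono I) (hK : StrictMono K) {c d : Cell}
    (h1 : I d.1 ≤ c.1) (h2 : c.1 < I (d.1 + 1)) (h3 : K d.2 ≤ c.2) (h4 : c.2 < K (d.2 + 1)) :
    co I K c = d := Prod.ext (fl_eq hI h1 h2) (fl_eq hK h3 h4)

/-! ### The refined polyomino is good -/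

lemma conn4_shift {T : Set Cell} (h : Conn4 T) : Conn4 {c : Cell | c + (1, 1) ∈ T} := by
  intro c hc d hd
  have h1 := h _ hc _ hd
  have h2 := h1.lift (r := fun a b => Adj4 a b ∧ b ∈ T)
    (p := fun a b : Cell => Adj4 a b ∧ b ∈ {c : Cell | c + (1, 1) ∈ T})
    (fun f => f - (1, 1)) (by
      rintro a b ⟨⟨k, hk⟩, hb⟩
      refine ⟨⟨k, ?_⟩, ?_⟩
      · rw [hk]; exact add_sub_right_comm _ _ _
      · simpa using hb)
  have e : ∀ f : Cell, f + (1, 1) - (1, 1) = f := fun f => add_sub_cancel_right f _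
  have h3 : Relation.ReflTransGen (fun a b : Cell => Adj4 a b ∧ b ∈ {c : Cell | c + (1, 1) ∈ T})
    (c + (1, 1) - (1, 1)) (d + (1, 1) - (1, 1)) := h2
  rwa [e, e] at h3

lemma conn4_ref (hI : StrictMono I) (hK : StrictMono K) {S : Set Cell} (h : Conn4 S) :
    Conn4 {c : Cell | co I K c ∈ S} := by
  have h1 := conn4_shift (conn4_FS hI hK h)
  exact h1

theorem good_ref (hI : StrictMono I) (hK : StrictMono K) (hQ : Good Q) : Good (ref I K Q) := by
  have e1 : ((ref I K Q : Finset Cell) : Set Cell) = {c : Cell | co I K c ∈ (Q : Set Cell)} := by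
    ext c; rw [mem_coe, mem_ref hI hK]; rfl
  have e2 : (((ref I K Q : Finset Cell) : Set Cell)ᶜ) =
      {c : Cell | co I K c ∈ ((Q : Set Cell)ᶜ)} := by
    rw [e1]; rfl
  refine ⟨?_, ?_, ?_, ?_, ?_⟩
  · obtain ⟨c, hc⟩ := hQ.ne
    refine ⟨(I c.1, K c.2), ?_⟩
    rw [mem_ref hI hK]
    unfold co
    simp only [fl_map hI, fl_map hK]
    exact hc
  · rw [e1]; exact conn4_ref hI hK hQ.conn
  · rw [e2]; exact conn4_ref hI hK hQ.conn_compl
  · rintro ⟨a, b⟩ h1 h2
    rw [mem_ref hI hK] at h1 h2 ⊢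
    rw [mem_ref hI hK]
    simp only [co, Prod.mk_add_mk, add_zero] at h1 h2 ⊢
    rcases fl_step hI a with ha | ha
    · rw [ha]; exact Or.inl h1
    · rcases fl_step hK b with hb | hb
      · rw [hb]; exact Or.inr h1
      · rw [ha, hb] at h2 ⊢
        have := hQ.diag1 (fl I a, fl K b) h1 (by simpa using h2)
        simpa using this
  · rintro ⟨a, b⟩ h1 h2
    rw [mem_ref hI hK] at h1 h2 ⊢
    rw [mem_ref hI hK]
    simp only [co, Prod.mk_add_mk, add_zero] at h1 h2 ⊢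
    rcases fl_step hI a with ha | ha
    · rw [ha] at h1; exact Or.inl h1
    · rcases fl_step hK b with hb | hb
      · rw [hb] at h2; exact Or.inl h2
      · rw [ha] at h1 ⊢
        rw [hb] at h2 ⊢
        have := hQ.diag2 (fl I a, fl K b) (by simpa using h1) (by simpa using h2)
        simpa using this

/-! ### Fine sides on a coarse side -/

lemma next_one {s : Cell × ℤ} (h : s.1 + dir s.2 + dir (s.2 - 1) ∈ Q) :
    nextSide Q s = (s.1 + dir s.2 + dir (s.2 - 1), s.2 - 1) := if_pos h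

lemma next_two {s : Cell × ℤ} (h : s.1 + dir s.2 + dir (s.2 - 1) ∉ Q) (h' : s.1 + dir s.2 ∈ Q) :
    nextSide Q s = (s.1 + dir s.2, s.2) := by
  unfold nextSide; rw [if_neg h, if_pos h']

lemma next_three {s : Cell × ℤ} (h : s.1 + dir s.2 + dir (s.2 - 1) ∉ Q)
    (h' : s.1 + dir s.2 ∉ Q) : nextSide Q s = (s.1, s.2 + 1) := by
  unfold nextSide; rw [if_neg h, if_neg h']

/-- The fine cell at the beginning of a coarse side. -/
def st (I K : ℤ → ℤ) (s : Cell × ℤ) : Cell :=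
  if s.2 % 4 = 0 then (I s.1.1, K s.1.2)
  else if s.2 % 4 = 1 then (I (s.1.1 + 1) - 1, K s.1.2)
  else if s.2 % 4 = 2 then (I (s.1.1 + 1) - 1, K (s.1.2 + 1) - 1)
  else (I s.1.1, K (s.1.2 + 1) - 1)

/-- The number of fine sides on a coarse side. -/
def len (I K : ℤ → ℤ) (s : Cell × ℤ) : ℕ :=
  if s.2 % 2 = 0 then (I (s.1.1 + 1) - I s.1.1).toNat else (K (s.1.2 + 1) - K s.1.2).toNat

/-- The `j`-th fine side on a coarse side. -/
def fsd (I K : ℤ → ℤ) (s : Cell × ℤ) (j : ℕ) : Cell × ℤ := (st I K s + (j : ℤ) • dir s.2, s.2)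

@[simp] lemma fsd_snd (s : Cell × ℤ) (j : ℕ) : (fsd I K s j).2 = s.2 := rfl

lemma fsd_cases (I K : ℤ → ℤ) (a b k : ℤ) (j : ℕ) :
    (k % 4 = 0 ∧ dir k = (1, 0) ∧ dir (k - 1) = (0, -1) ∧
      (fsd I K ((a, b), k) j).1 = (I a + j, K b) ∧
      len I K ((a, b), k) = (I (a + 1) - I a).toNat) ∨
    (k % 4 = 1 ∧ dir k = (0, 1) ∧ dir (k - 1) = (1, 0) ∧
      (fsd I K ((a, b), k) j).1 = (I (a + 1) - 1, K b + j) ∧
      len I K ((a, b), k) = (K (b + 1) - K b).toNat) ∨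
    (k % 4 = 2 ∧ dir k = (-1, 0) ∧ dir (k - 1) = (0, 1) ∧
      (fsd I K ((a, b), k) j).1 = (I (a + 1) - 1 - j, K (b + 1) - 1) ∧
      len I K ((a, b), k) = (I (a + 1) - I a).toNat) ∨
    (k % 4 = 3 ∧ dir k = (0, -1) ∧ dir (k - 1) = (-1, 0) ∧
      (fsd I K ((a, b), k) j).1 = (I a, K (b + 1) - 1 - j) ∧
      len I K ((a, b), k) = (K (b + 1) - K b).toNat) := by
  unfold fsd st len
  simp only
  rcases dir_cases k with ⟨e, f⟩ | ⟨e, f⟩ | ⟨e, f⟩ | ⟨e, f⟩ <;>
  rcases dir_cases (k - 1) with ⟨g, h⟩ | ⟨g, h⟩ | ⟨g, h⟩ | ⟨g, h⟩ <;>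
  first
  | (exfalso; omega)
  | (rw [f, h]
     simp only [e]
     norm_num
     try (first | (have : k % 2 = 0 := by omega) | (have : k % 2 = 1 := by omega))
     simp [this, sub_eq_add_neg])

lemma len_pos (hI : StrictMono I) (hK : StrictMono K) (s : Cell × ℤ) : 0 < len I K s := by
  have h1 : I s.1.1 < I (s.1.1 + 1) := hI (by omega)
  have h2 : K s.1.2 < K (s.1.2 + 1) := hK (by omega)
  unfold len
  split_ifs <;> omega

lemma co_fsd (hI : StrictMono I) (hK : StrictMono K) {s : Cell × ℤ} {j : ℕ}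
    (hj : j < len I K s) : co I K (fsd I K s j).1 = s.1 := by
  obtain ⟨⟨a, b⟩, k⟩ := s
  have h1 : I a < I (a + 1) := hI (by omega)
  have h2 : K b < K (b + 1) := hK (by omega)
  rcases fsd_cases I K a b k j with ⟨h, -, -, e, f⟩ | ⟨h, -, -, e, f⟩ | ⟨h, -, -, e, f⟩ |
    ⟨h, -, -, e, f⟩ <;>
  (rw [f] at hj; rw [e]; apply co_eq hI hK <;> simp only <;> omega)

lemma co_fsd_right (hI : StrictMono I) (hK : StrictMono K) {s : Cell × ℤ} {j : ℕ}
    (hj : j < len I K s) :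
    co I K ((fsd I K s j).1 + dir (s.2 - 1)) = s.1 + dir (s.2 - 1) := by
  obtain ⟨⟨a, b⟩, k⟩ := s
  have h1 : I a < I (a + 1) := hI (by omega)
  have h2 : K b < K (b + 1) := hK (by omega)
  have h3 : I (a - 1) < I a := hI (by omega)
  have h4 : K (b - 1) < K b := hK (by omega)
  have h5 : I (a + 1) < I (a + 1 + 1) := hI (by omega)
  have h6 : K (b + 1) < K (b + 1 + 1) := hK (by omega)
  rcases fsd_cases I K a b k j with ⟨h, -, g, e, f⟩ | ⟨h, -, g, e, f⟩ | ⟨h, -, g, e, f⟩ |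
    ⟨h, -, g, e, f⟩ <;>
  (rw [f] at hj; simp only; rw [e, g]; apply co_eq hI hK <;>
    simp only [Prod.mk_add_mk, add_zero, ← sub_eq_add_neg, sub_add_cancel] <;> omega)

lemma isSide_fsd (hI : StrictMono I) (hK : StrictMono K) {s : Cell × ℤ} (hs : IsSide Q s) {j : ℕ}
    (hj : j < len I K s) : IsSide (ref I K Q) (fsd I K s j) := by
  refine ⟨?_, ?_⟩
  · rw [mem_ref hI hK, co_fsd hI hK hj]; exact hs.1
  · rw [fsd_snd, mem_ref hI hK, co_fsd_right hI hK hj]; exact hs.2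

/-- inside a coarse side -/
lemma next_fsd (hI : StrictMono I) (hK : StrictMono K) {s : Cell × ℤ} (hs : IsSide Q s) {j : ℕ}
    (hj : j + 1 < len I K s) :
    nextSide (ref I K Q) (fsd I K s j) = fsd I K s (j + 1) := by
  have e1 : (fsd I K s j).1 + dir s.2 = (fsd I K s (j + 1)).1 := by
    unfold fsd
    simp only
    push_cast
    rw [add_smul, one_smul, add_assoc]
  have h1 : co I K ((fsd I K s j).1 + dir s.2) = s.1 := by
    rw [e1]; exact co_fsd hI hK hj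
  have h2 : co I K ((fsd I K s j).1 + dir s.2 + dir (s.2 - 1)) = s.1 + dir (s.2 - 1) := by
    rw [e1]; exact co_fsd_right hI hK hj
  unfold nextSide
  rw [fsd_snd, if_neg (by rw [mem_ref hI hK, h2]; exact hs.2),
    if_pos (by rw [mem_ref hI hK, h1]; exact hs.1), e1]
  rfl

/-- at the end of a coarse side -/
lemma next_fsd_last (hI : StrictMono I) (hK : StrictMono K) {s : Cell × ℤ} {j : ℕ}
    (hj : j + 1 = len I K s) :
    nextSide (ref I K Q) (fsd I K s j) = fsd I K (nextSide Q s) 0 := by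
  obtain ⟨⟨a, b⟩, k⟩ := s
  have h1 : I a < I (a + 1) := hI (by omega)
  have h2 : K b < K (b + 1) := hK (by omega)
  have h3 : I (a - 1) < I a := hI (by omega)
  have h4 : K (b - 1) < K b := hK (by omega)
  have h5 : I (a + 1) < I (a + 1 + 1) := hI (by omega)
  have h6 : K (b + 1) < K (b + 1 + 1) := hK (by omega)
  have c1 : co I K ((fsd I K ((a, b), k) j).1 + dir k) = (a, b) + dir k := by
    rcases fsd_cases I K a b k j with ⟨h, g, -, e, f⟩ | ⟨h, g, -, e, f⟩ | ⟨h, g, -, e, f⟩ |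
      ⟨h, g, -, e, f⟩ <;>
    (rw [f] at hj; rw [e, g]; apply co_eq hI hK <;>
      simp only [Prod.mk_add_mk, add_zero, ← sub_eq_add_neg, sub_add_cancel] <;> omega)
  have c2 : co I K ((fsd I K ((a, b), k) j).1 + dir k + dir (k - 1)) =
      (a, b) + dir k + dir (k - 1) := by
    rcases fsd_cases I K a b k j with ⟨h, g, g', e, f⟩ | ⟨h, g, g', e, f⟩ | ⟨h, g, g', e, f⟩ |
      ⟨h, g, g', e, f⟩ <;>
    (rw [f] at hj; rw [e, g, g']; apply co_eq hI hK <;>
      simp only [Prod.mk_add_mk, add_zero, ← sub_eq_add_neg, sub_add_cancel] <;> omega)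
  have d1 : (fsd I K ((a, b), k) j).1 + dir k = (fsd I K ((a, b) + dir k, k) 0).1 := by
    rcases fsd_cases I K a b k j with ⟨h, g, -, e, f⟩ | ⟨h, g, -, e, f⟩ | ⟨h, g, -, e, f⟩ |
      ⟨h, g, -, e, f⟩ <;>
    (rw [f] at hj
     rw [e, g]
     simp only [Prod.mk_add_mk, add_zero, ← sub_eq_add_neg]
     unfold fsd st
     simp only [h]
     norm_num
     omega)
  have d2 : (fsd I K ((a, b), k) j).1 + dir k + dir (k - 1) =
      (fsd I K ((a, b) + dir k + dir (k - 1), k - 1) 0).1 := by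
    rcases fsd_cases I K a b k j with ⟨h, g, g', e, f⟩ | ⟨h, g, g', e, f⟩ | ⟨h, g, g', e, f⟩ |
      ⟨h, g, g', e, f⟩ <;>
    (rw [f] at hj
     rw [e, g, g']
     simp only [Prod.mk_add_mk, add_zero, ← sub_eq_add_neg]
     unfold fsd st
     have h' : (k - 1) % 4 = 3 ∨ (k - 1) % 4 = 0 ∨ (k - 1) % 4 = 1 ∨ (k - 1) % 4 = 2 := by omega
     rcases h' with h' | h' | h' | h' <;> first | (exfalso; omega) |
     (simp only [h']
      norm_num
      try omega))
  have d3 : (fsd I K ((a, b), k) j).1 = (fsd I K ((a, b), k + 1) 0).1 := by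
    rcases fsd_cases I K a b k j with ⟨h, g, g', e, f⟩ | ⟨h, g, g', e, f⟩ | ⟨h, g, g', e, f⟩ |
      ⟨h, g, g', e, f⟩ <;>
    (rw [f] at hj
     rw [e]
     unfold fsd st
     have h' : (k + 1) % 4 = 1 ∨ (k + 1) % 4 = 2 ∨ (k + 1) % 4 = 3 ∨ (k + 1) % 4 = 0 := by omega
     rcases h' with h' | h' | h' | h' <;> first | (exfalso; omega) |
     (simp only [h']
      norm_num
      try omega))
  have m1 : ∀ c : Cell, c ∈ ref I K Q ↔ co I K c ∈ Q := fun c => mem_ref hI hK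
  by_cases ha : (a, b) + dir k + dir (k - 1) ∈ Q
  · rw [next_one (s := ((a, b), k)) ha, next_one (by rw [fsd_snd, m1, c2]; exact ha)]
    exact Prod.ext d2 rfl
  · have ha' : (fsd I K ((a, b), k) j).1 + dir (fsd I K ((a, b), k) j).2 +
        dir ((fsd I K ((a, b), k) j).2 - 1) ∉ ref I K Q := by rw [fsd_snd, m1, c2]; exact ha
    by_cases hb : (a, b) + dir k ∈ Q
    · rw [next_two (s := ((a, b), k)) ha hb, next_two ha' (by rw [fsd_snd, m1, c1]; exact hb)]
      exact Prod.ext d1 rfl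
    · rw [next_three (s := ((a, b), k)) ha hb, next_three ha' (by rw [fsd_snd, m1, c1]; exact hb)]
      exact Prod.ext d3 rfl

end Pool.Agent.H48.Q1
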