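import Pool.Agent.H48.Q1.RefType
import Pool.Agent.Q1.M5.Defs

set_option autoImplicit false
open Finset

/-! The lattice domain of the refined domain type is the same (R1). -/

namespace Pool.Agent.H48.Q1

open Pool.Agent.H75.Perc (dir dir_cases Bx mem_Bx inB Pr)
open Pool.Agent.H49.Q1 (gcell gs mem_gs onCell)
open Pool.Agent.Q1.M4 Pool.Agent.Q1.M5

variable {I K : ℤ → ℤ} {Q : Finset Cell} {X Y : ℤ → ℤ}

/-! ### One coordinate -/

/-- a point of a coarse interval lies in a fine interval (`u` = factor, 1 or 2) -/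
lemma split_line {X : ℤ → ℤ} (u : ℤ) {p q t : ℤ} (hpq : p < q)
    (h1 : u * X p ≤ t) (h2 : t ≤ u * X q) : ∃ c, p ≤ c ∧ c < q ∧ u * X c ≤ t ∧ t ≤ u * X (c + 1) := by
  obtain ⟨n, rfl⟩ : ∃ n : ℕ, q = p + 1 + n := ⟨(q - p - 1).toNat, by omega⟩
  clear hpq
  induction n with
  | zero => exact ⟨p, le_rfl, by simp, h1, by simpa using h2⟩
  | succ n ih =>
    rcases le_total t (u * X (p + 1 + n)) with h | h
    · obtain ⟨c, a, b, c1, c2⟩ := ih h
      exact ⟨c, a, by push_cast; omega, c1, c2⟩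
    · refine ⟨p + 1 + n, by omega, by push_cast; omega, h, ?_⟩
      have : p + 1 + (n : ℤ) + 1 = p + 1 + ((n + 1 : ℕ) : ℤ) := by push_cast; ring
      rw [this]; exact h2

lemma mono_mul {X : ℤ → ℤ} (hX : StrictMono X) {u : ℤ} (hu : 0 ≤ u) {p q : ℤ} (h : p ≤ q) :
    u * X p ≤ u * X q := mul_le_mul_of_nonneg_left (hX.monotone h) hu

/-! ### Cells -/

lemma gs_ref (hI : StrictMono I) (hK : StrictMono K) (hX : StrictMono X) (hY : StrictMono Y) :
    gs X Y (ref I K Q) = gs (X ∘ I) (Y ∘ K) Q := by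
  ext e
  rw [mem_gs, mem_gs]
  constructor
  · rintro ⟨c, hc, he⟩
    rw [mem_ref'] at hc
    obtain ⟨d, hd, h1, h2⟩ := hc
    refine ⟨d, hd, ?_⟩
    unfold gcell at he ⊢
    rw [mem_Bx] at he ⊢
    simp only [Function.comp]
    have a1 := mono_mul hX (u := 2) (by norm_num) h1.1
    have a2 := mono_mul hX (u := 2) (by norm_num) (show c.1 + 1 ≤ I (d.1 + 1) by omega)
    have a3 := mono_mul hY (u := 2) (by norm_num) h2.1
    have a4 := mono_mul hY (u := 2) (by norm_num) (show c.2 + 1 ≤ K (d.2 + 1) by omega)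
    omega
  · rintro ⟨d, hd, he⟩
    unfold gcell at he
    rw [mem_Bx] at he
    simp only [Function.comp] at he
    obtain ⟨a, a1, a2, a3, a4⟩ := split_line 2 (hI (show d.1 < d.1 + 1 by omega)) he.1.1 he.1.2
    obtain ⟨b, b1, b2, b3, b4⟩ :=
      split_line 2 (hK (show d.2 < d.2 + 1 by omega)) he.2.1.1 he.2.1.2
    refine ⟨(a, b), mem_ref'.2 ⟨d, hd, ⟨a1, a2⟩, b1, b2⟩, ?_⟩
    unfold gcell
    rw [mem_Bx]
    exact ⟨⟨a3, a4⟩, ⟨b3, b4⟩, he.2.2⟩

lemma inV_ref (hI : StrictMono I) (hK : StrictMono K) (hX : StrictMono X) (hY : StrictMono Y)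
    (v : ℤ × ℤ) : inV (ref I K Q) X Y v ↔ inV Q (X ∘ I) (Y ∘ K) v := by
  unfold inV inRect
  constructor
  · rintro ⟨c, hc, he⟩
    rw [mem_ref'] at hc
    obtain ⟨d, hd, h1, h2⟩ := hc
    refine ⟨d, hd, ?_⟩
    simp only [Function.comp]
    have a1 := hX.monotone h1.1
    have a2 := hX.monotone (show c.1 + 1 ≤ I (d.1 + 1) by omega)
    have a3 := hY.monotone h2.1
    have a4 := hY.monotone (show c.2 + 1 ≤ K (d.2 + 1) by omega)
    omega
  · rintro ⟨d, hd, he⟩
    simp only [Function.comp] at he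
    obtain ⟨a, a1, a2, a3, a4⟩ := split_line (X := X) 1 (t := v.1) (hI (show d.1 < d.1 + 1 by omega))
      (by omega) (by omega)
    obtain ⟨b, b1, b2, b3, b4⟩ := split_line (X := Y) 1 (t := v.2) (hK (show d.2 < d.2 + 1 by omega))
      (by omega) (by omega)
    refine ⟨(a, b), mem_ref'.2 ⟨d, hd, ⟨a1, a2⟩, b1, b2⟩, ?_⟩
    simp only
    omega

/-! ### Sides -/

lemma mem_sL {s : Cell × ℤ} {e : ℤ × ℤ} : e ∈ sL X Y s ↔
    ((2 * X s.1.1 ≤ e.1 ∧ e.1 ≤ 2 * X (s.1.1 + 1)) ∧ (2 * Y s.1.2 ≤ e.2 ∧ e.2 ≤ 2 * Y (s.1.2 + 1)) ∧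
      (e.1 + e.2) % 2 = 1) ∧
    ((s.2 % 4 = 0 → e.2 = 2 * Y s.1.2) ∧
    (s.2 % 4 = 1 → e.1 = 2 * X (s.1.1 + 1)) ∧ (s.2 % 4 = 2 → e.2 = 2 * Y (s.1.2 + 1)) ∧
    (s.2 % 4 = 3 → e.1 = 2 * X s.1.1)) := by
  unfold sL gcell
  rw [mem_filter, mem_Bx]

lemma sL_ref (hI : StrictMono I) (hK : StrictMono K) (hX : StrictMono X) (hY : StrictMono Y)
    (s : Cell × ℤ) (e : ℤ × ℤ) : e ∈ sL (X ∘ I) (Y ∘ K) s ↔
      ∃ j < len I K s, e ∈ sL X Y (fsd I K s j) := by
  obtain ⟨⟨a, b⟩, k⟩ := s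
  have h1 : I a < I (a + 1) := hI (by omega)
  have h2 : K b < K (b + 1) := hK (by omega)
  have x1 := mono_mul hX (u := 2) (by norm_num) (show I (a + 1) - 1 ≤ I (a + 1) by omega)
  have x2 := mono_mul hX (u := 2) (by norm_num) (show I a ≤ I a + 1 by omega)
  have x3 := mono_mul hX (u := 2) (by norm_num) (show I a ≤ I (a + 1) by omega)
  have x4 := mono_mul hX (u := 2) (by norm_num) (show I a + 1 ≤ I (a + 1) by omega)
  have x5 := mono_mul hX (u := 2) (by norm_num) (show I a ≤ I (a + 1) - 1 by omega)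
  have y1 := mono_mul hY (u := 2) (by norm_num) (show K (b + 1) - 1 ≤ K (b + 1) by omega)
  have y2 := mono_mul hY (u := 2) (by norm_num) (show K b ≤ K b + 1 by omega)
  have y3 := mono_mul hY (u := 2) (by norm_num) (show K b ≤ K (b + 1) by omega)
  have y4 := mono_mul hY (u := 2) (by norm_num) (show K b + 1 ≤ K (b + 1) by omega)
  have y5 := mono_mul hY (u := 2) (by norm_num) (show K b ≤ K (b + 1) - 1 by omega)
  rw [mem_sL]
  simp only [Function.comp]
  constructor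
  · rintro ⟨⟨⟨e1, e2⟩, ⟨e3, e4⟩, e5⟩, f0, f1, f2, f3⟩
    obtain ⟨c, c1, c2, c3, c4⟩ := split_line 2 h1 e1 e2
    obtain ⟨d, d1, d2, d3, d4⟩ := split_line 2 h2 e3 e4
    have hk : k % 4 = 0 ∨ k % 4 = 1 ∨ k % 4 = 2 ∨ k % 4 = 3 := by omega
    rcases hk with hk | hk | hk | hk
    · refine ⟨(c - I a).toNat, ?_⟩
      rcases fsd_cases I K a b k (c - I a).toNat with ⟨h, -, -, g, f⟩ | ⟨h, -, -, g, f⟩ |
        ⟨h, -, -, g, f⟩ | ⟨h, -, -, g, f⟩ <;> first | (exfalso; omega) | skip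
      have hc : I a + ((c - I a).toNat : ℤ) = c := by omega
      rw [hc] at g
      refine ⟨by rw [f]; omega, ?_⟩
      rw [mem_sL, g, fsd_snd]
      simp only
      have := f0 hk
      omega
    · refine ⟨(d - K b).toNat, ?_⟩
      rcases fsd_cases I K a b k (d - K b).toNat with ⟨h, -, -, g, f⟩ | ⟨h, -, -, g, f⟩ |
        ⟨h, -, -, g, f⟩ | ⟨h, -, -, g, f⟩ <;> first | (exfalso; omega) | skip
      have hc : K b + ((d - K b).toNat : ℤ) = d := by omega
      rw [hc] at g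
      refine ⟨by rw [f]; omega, ?_⟩
      rw [mem_sL, g, fsd_snd]
      simp only [sub_add_cancel]
      have := f1 hk
      omega
    · refine ⟨(I (a + 1) - 1 - c).toNat, ?_⟩
      rcases fsd_cases I K a b k (I (a + 1) - 1 - c).toNat with ⟨h, -, -, g, f⟩ | ⟨h, -, -, g, f⟩ |
        ⟨h, -, -, g, f⟩ | ⟨h, -, -, g, f⟩ <;> first | (exfalso; omega) | skip
      have hc : I (a + 1) - 1 - ((I (a + 1) - 1 - c).toNat : ℤ) = c := by omega
      rw [hc] at g
      refine ⟨by rw [f]; omega, ?_⟩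
      rw [mem_sL, g, fsd_snd]
      simp only [sub_add_cancel]
      have := f2 hk
      omega
    · refine ⟨(K (b + 1) - 1 - d).toNat, ?_⟩
      rcases fsd_cases I K a b k (K (b + 1) - 1 - d).toNat with ⟨h, -, -, g, f⟩ | ⟨h, -, -, g, f⟩ |
        ⟨h, -, -, g, f⟩ | ⟨h, -, -, g, f⟩ <;> first | (exfalso; omega) | skip
      have hc : K (b + 1) - 1 - ((K (b + 1) - 1 - d).toNat : ℤ) = d := by omega
      rw [hc] at g
      refine ⟨by rw [f]; omega, ?_⟩
      rw [mem_sL, g, fsd_snd]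
      simp only [sub_add_cancel]
      have := f3 hk
      omega
  · rintro ⟨j, hj, he⟩
    rw [mem_sL] at he
    rcases fsd_cases I K a b k j with ⟨h, -, -, g, f⟩ | ⟨h, -, -, g, f⟩ |
      ⟨h, -, -, g, f⟩ | ⟨h, -, -, g, f⟩
    · rw [f] at hj
      rw [g, fsd_snd] at he
      simp only at he
      have z1 := mono_mul hX (u := 2) (by norm_num) (show I a ≤ I a + j by omega)
      have z2 := mono_mul hX (u := 2) (by norm_num) (show I a + j + 1 ≤ I (a + 1) by omega)
      omega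
    · rw [f] at hj
      rw [g, fsd_snd] at he
      simp only [sub_add_cancel] at he
      have z1 := mono_mul hY (u := 2) (by norm_num) (show K b ≤ K b + j by omega)
      have z2 := mono_mul hY (u := 2) (by norm_num) (show K b + j + 1 ≤ K (b + 1) by omega)
      omega
    · rw [f] at hj
      rw [g, fsd_snd] at he
      simp only [sub_add_cancel] at he
      have z1 := mono_mul hX (u := 2) (by norm_num) (show I a ≤ I (a + 1) - 1 - j by omega)
      have z2 := mono_mul hX (u := 2) (by norm_num)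
        (show I (a + 1) - 1 - j + 1 ≤ I (a + 1) by omega)
      omega
    · rw [f] at hj
      rw [g, fsd_snd] at he
      simp only [sub_add_cancel] at he
      have z1 := mono_mul hY (u := 2) (by norm_num) (show K b ≤ K (b + 1) - 1 - j by omega)
      have z2 := mono_mul hY (u := 2) (by norm_num)
        (show K (b + 1) - 1 - j + 1 ≤ K (b + 1) by omega)
      omega

lemma sV_iff {s : Cell × ℤ} {v : ℤ × ℤ} : sV X Y s v ↔
    ((X s.1.1 ≤ v.1 ∧ v.1 ≤ X (s.1.1 + 1)) ∧ (Y s.1.2 ≤ v.2 ∧ v.2 ≤ Y (s.1.2 + 1))) ∧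
    ((s.2 % 4 = 0 → v.2 = Y s.1.2) ∧ (s.2 % 4 = 1 → v.1 = X (s.1.1 + 1)) ∧
    (s.2 % 4 = 2 → v.2 = Y (s.1.2 + 1)) ∧ (s.2 % 4 = 3 → v.1 = X s.1.1)) := Iff.rfl

/-- a vertex is on a side iff the doubled vertex satisfies the conditions of `sL` without parity -/
lemma sV_ref (hI : StrictMono I) (hK : StrictMono K) (hX : StrictMono X) (hY : StrictMono Y)
    (s : Cell × ℤ) (e : ℤ × ℤ) : sV (X ∘ I) (Y ∘ K) s e ↔
      ∃ j < len I K s, sV X Y (fsd I K s j) e := by
  obtain ⟨⟨a, b⟩, k⟩ := s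
  have h1 : I a < I (a + 1) := hI (by omega)
  have h2 : K b < K (b + 1) := hK (by omega)
  have x1 := hX.monotone (show I (a + 1) - 1 ≤ I (a + 1) by omega)
  have x2 := hX.monotone (show I a ≤ I a + 1 by omega)
  have x3 := hX.monotone (show I a ≤ I (a + 1) by omega)
  have x4 := hX.monotone (show I a + 1 ≤ I (a + 1) by omega)
  have x5 := hX.monotone (show I a ≤ I (a + 1) - 1 by omega)
  have y1 := hY.monotone (show K (b + 1) - 1 ≤ K (b + 1) by omega)
  have y2 := hY.monotone (show K b ≤ K b + 1 by omega)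
  have y3 := hY.monotone (show K b ≤ K (b + 1) by omega)
  have y4 := hY.monotone (show K b + 1 ≤ K (b + 1) by omega)
  have y5 := hY.monotone (show K b ≤ K (b + 1) - 1 by omega)
  rw [sV_iff]
  simp only [Function.comp]
  constructor
  · rintro ⟨⟨⟨e1, e2⟩, ⟨e3, e4⟩⟩, f0, f1, f2, f3⟩
    obtain ⟨c, c1, c2, c3, c4⟩ := split_line (X := X) 1 (t := e.1) h1 (by omega) (by omega)
    obtain ⟨d, d1, d2, d3, d4⟩ := split_line (X := Y) 1 (t := e.2) h2 (by omega) (by omega)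
    have hk : k % 4 = 0 ∨ k % 4 = 1 ∨ k % 4 = 2 ∨ k % 4 = 3 := by omega
    rcases hk with hk | hk | hk | hk
    · refine ⟨(c - I a).toNat, ?_⟩
      rcases fsd_cases I K a b k (c - I a).toNat with ⟨h, -, -, g, f⟩ | ⟨h, -, -, g, f⟩ |
        ⟨h, -, -, g, f⟩ | ⟨h, -, -, g, f⟩ <;> first | (exfalso; omega) | skip
      have hc : I a + ((c - I a).toNat : ℤ) = c := by omega
      rw [hc] at g
      refine ⟨by rw [f]; omega, ?_⟩
      rw [sV_iff, g, fsd_snd]
      simp only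
      have := f0 hk
      omega
    · refine ⟨(d - K b).toNat, ?_⟩
      rcases fsd_cases I K a b k (d - K b).toNat with ⟨h, -, -, g, f⟩ | ⟨h, -, -, g, f⟩ |
        ⟨h, -, -, g, f⟩ | ⟨h, -, -, g, f⟩ <;> first | (exfalso; omega) | skip
      have hc : K b + ((d - K b).toNat : ℤ) = d := by omega
      rw [hc] at g
      refine ⟨by rw [f]; omega, ?_⟩
      rw [sV_iff, g, fsd_snd]
      simp only [sub_add_cancel]
      have := f1 hk
      omega
    · refine ⟨(I (a + 1) - 1 - c).toNat, ?_⟩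
      rcases fsd_cases I K a b k (I (a + 1) - 1 - c).toNat with ⟨h, -, -, g, f⟩ | ⟨h, -, -, g, f⟩ |
        ⟨h, -, -, g, f⟩ | ⟨h, -, -, g, f⟩ <;> first | (exfalso; omega) | skip
      have hc : I (a + 1) - 1 - ((I (a + 1) - 1 - c).toNat : ℤ) = c := by omega
      rw [hc] at g
      refine ⟨by rw [f]; omega, ?_⟩
      rw [sV_iff, g, fsd_snd]
      simp only [sub_add_cancel]
      have := f2 hk
      omega
    · refine ⟨(K (b + 1) - 1 - d).toNat, ?_⟩
      rcases fsd_cases I K a b k (K (b + 1) - 1 - d).toNat with ⟨h, -, -, g, f⟩ | ⟨h, -, -, g, f⟩ |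
        ⟨h, -, -, g, f⟩ | ⟨h, -, -, g, f⟩ <;> first | (exfalso; omega) | skip
      have hc : K (b + 1) - 1 - ((K (b + 1) - 1 - d).toNat : ℤ) = d := by omega
      rw [hc] at g
      refine ⟨by rw [f]; omega, ?_⟩
      rw [sV_iff, g, fsd_snd]
      simp only [sub_add_cancel]
      have := f3 hk
      omega
  · rintro ⟨j, hj, he⟩
    rw [sV_iff] at he
    rcases fsd_cases I K a b k j with ⟨h, -, -, g, f⟩ | ⟨h, -, -, g, f⟩ |
      ⟨h, -, -, g, f⟩ | ⟨h, -, -, g, f⟩
    · rw [f] at hj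
      rw [g, fsd_snd] at he
      simp only at he
      have z1 := hX.monotone (show I a ≤ I a + j by omega)
      have z2 := hX.monotone (show I a + j + 1 ≤ I (a + 1) by omega)
      omega
    · rw [f] at hj
      rw [g, fsd_snd] at he
      simp only [sub_add_cancel] at he
      have z1 := hY.monotone (show K b ≤ K b + j by omega)
      have z2 := hY.monotone (show K b + j + 1 ≤ K (b + 1) by omega)
      omega
    · rw [f] at hj
      rw [g, fsd_snd] at he
      simp only [sub_add_cancel] at he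
      have z1 := hX.monotone (show I a ≤ I (a + 1) - 1 - j by omega)
      have z2 := hX.monotone (show I (a + 1) - 1 - j + 1 ≤ I (a + 1) by omega)
      omega
    · rw [f] at hj
      rw [g, fsd_snd] at he
      simp only [sub_add_cancel] at he
      have z1 := hY.monotone (show K b ≤ K (b + 1) - 1 - j by omega)
      have z2 := hY.monotone (show K (b + 1) - 1 - j + 1 ≤ K (b + 1) by omega)
      omega

/-! ### Wired arc and random labels -/

/-- a predicate on fine sides in a range of coarse sides -/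
lemma exists_side_iff (P : PType) (hI : StrictMono I) (hK : StrictMono K) (p q : ℕ)
    (A : Cell × ℤ → Prop) :
    (∃ n', P.L I K p ≤ n' ∧ n' < P.L I K q ∧ A ((P.refine hI hK).side n')) ↔
      ∃ n, p ≤ n ∧ n < q ∧ ∃ j < len I K (P.side n), A (fsd I K (P.side n) j) := by
  constructor
  · rintro ⟨n', h1, h2, h3⟩
    obtain ⟨n, j, hj, rfl⟩ := P.exists_loc hI hK n'
    rw [P.refine_side hI hK hj] at h3
    have h4 := (P.loc_lt hI hK hj).1 h2
    refine ⟨n, ?_, h4, j, hj, h3⟩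
    by_contra hn
    have := (P.loc_lt hI hK (m := p) hj).2 (not_le.1 hn)
    omega
  · rintro ⟨n, h1, h2, j, hj, h3⟩
    refine ⟨P.L I K n + j, ?_, (P.loc_lt hI hK hj).2 h2, ?_⟩
    · have := (P.L_strictMono hI hK).monotone h1
      omega
    · rw [P.refine_side hI hK hj]; exact h3

lemma WL_ref (P : PType) (hI : StrictMono I) (hK : StrictMono K) (hX : StrictMono X)
    (hY : StrictMono Y) : WL (P.refine hI hK) X Y = WL P (X ∘ I) (Y ∘ K) := by
  ext e
  unfold WL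
  simp only [mem_biUnion, mem_Ico, PType.refine_m, PType.refine_N]
  have h := exists_side_iff P hI hK P.m P.N (fun s => e ∈ sL X Y s)
  constructor
  · rintro ⟨n', ⟨h1, h2⟩, h3⟩
    obtain ⟨n, a, b, j, hj, hjj⟩ := h.1 ⟨n', h1, h2, h3⟩
    exact ⟨n, ⟨a, b⟩, (sL_ref hI hK hX hY _ _).2 ⟨j, hj, hjj⟩⟩
  · rintro ⟨n, ⟨h1, h2⟩, h3⟩
    obtain ⟨j, hj, hjj⟩ := (sL_ref hI hK hX hY _ _).1 h3
    obtain ⟨n', a, b, c⟩ := h.2 ⟨n, h1, h2, j, hj, hjj⟩
    exact ⟨n', ⟨a, b⟩, c⟩

lemma EL_ref (P : PType) (hI : StrictMono I) (hK : StrictMono K) (hX : StrictMono X)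
    (hY : StrictMono Y) : EL (P.refine hI hK) X Y = EL P (X ∘ I) (Y ∘ K) := by
  unfold EL
  rw [WL_ref P hI hK hX hY, PType.refine_Q, gs_ref hI hK hX hY]

lemma sVr_ref (P : PType) (hI : StrictMono I) (hK : StrictMono K) (hX : StrictMono X)
    (hY : StrictMono Y) (p q : ℕ) (v : ℤ × ℤ) :
    (∃ n, P.L I K p ≤ n ∧ n < P.L I K q ∧ sV X Y ((P.refine hI hK).side n) v) ↔
      ∃ n, p ≤ n ∧ n < q ∧ sV (X ∘ I) (Y ∘ K) (P.side n) v := by
  rw [exists_side_iff P hI hK p q (fun s => sV X Y s v)]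
  constructor
  · rintro ⟨n, a, b, h⟩
    exact ⟨n, a, b, (sV_ref hI hK hX hY _ _).2 h⟩
  · rintro ⟨n, a, b, h⟩
    exact ⟨n, a, b, (sV_ref hI hK hX hY _ _).1 h⟩

lemma TV_ref (P : PType) (hI : StrictMono I) (hK : StrictMono K) (hX : StrictMono X)
    (hY : StrictMono Y) (v : ℤ × ℤ) :
    TV (P.refine hI hK) X Y v ↔ TV P (X ∘ I) (Y ∘ K) v :=
  sVr_ref P hI hK hX hY P.m P.N v

lemma CT_ref (P : PType) (hI : StrictMono I) (hK : StrictMono K) (hX : StrictMono X)
    (hY : StrictMono Y) (v : ℤ × ℤ) (ω : Finset (ℤ × ℤ)) :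
    CT (P.refine hI hK) X Y v ω ↔ CT P (X ∘ I) (Y ∘ K) v ω := by
  unfold CT
  rw [WL_ref P hI hK hX hY]
  have : TV (P.refine hI hK) X Y = TV P (X ∘ I) (Y ∘ K) :=
    funext fun v => propext (TV_ref P hI hK hX hY v)
  rw [this]

lemma CT_ref_eq (P : PType) (hI : StrictMono I) (hK : StrictMono K) (hX : StrictMono X)
    (hY : StrictMono Y) : CT (P.refine hI hK) X Y = CT P (X ∘ I) (Y ∘ K) := by
  funext v ω
  exact propext (CT_ref P hI hK hX hY v ω)

lemma hh_ref (P : PType) (hI : StrictMono I) (hK : StrictMono K) (hX : StrictMono X)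
    (hY : StrictMono Y) : hh (P.refine hI hK) X Y = hh P (X ∘ I) (Y ∘ K) := by
  funext v
  unfold hh
  rw [EL_ref P hI hK hX hY, CT_ref_eq P hI hK hX hY]

lemma CI_ref (P : PType) (hI : StrictMono I) (hK : StrictMono K) (hX : StrictMono X)
    (hY : StrictMono Y) (n1 n2 : ℕ) :
    CI (P.refine hI hK) X Y (P.L I K n1) (P.L I K n2) = CI P (X ∘ I) (Y ∘ K) n1 n2 := by
  funext ω
  apply propext
  unfold CI
  rw [CT_ref_eq P hI hK hX hY]
  constructor
  · rintro ⟨n, a, b, v, hv, hc⟩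
    obtain ⟨m, a', b', hv'⟩ := (sVr_ref P hI hK hX hY n1 n2 v).1 ⟨n, a, b, hv⟩
    exact ⟨m, a', b', v, hv', hc⟩
  · rintro ⟨n, a, b, v, hv, hc⟩
    obtain ⟨m, a', b', hv'⟩ := (sVr_ref P hI hK hX hY n1 n2 v).2 ⟨n, a, b, hv⟩
    exact ⟨m, a', b', v, hv', hc⟩

/-! ### Vertices -/

lemma lv_ref (P : PType) (hI : StrictMono I) (hK : StrictMono K) (n : ℕ) :
    lv (P.refine hI hK) X Y (P.L I K n) = lv P (X ∘ I) (Y ∘ K) n := by
  unfold lv
  rw [P.refine_vert_zero hI hK]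
  rfl

lemma lv_ref' (P : PType) (hI : StrictMono I) (hK : StrictMono K) {n j : ℕ}
    (hj : j ≤ len I K (P.side n)) : lv (P.refine hI hK) X Y (P.L I K n + j) =
      lpt X Y (vm I K (P.vert n) + (j : ℤ) • dir (P.side n).2) := by
  unfold lv
  rw [P.refine_vert hI hK hj]

/-- flat vertices of the free arc stay flat -/
lemma flatV_ref {P : PType} (hI : StrictMono I) (hK : StrictMono K) {n : ℕ} (h : FlatV P n) :
    FlatV (P.refine hI hK) (P.L I K n) := by
  obtain ⟨h1, h2, h3⟩ := h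
  obtain ⟨n, rfl⟩ : ∃ r, n = r + 1 := ⟨n - 1, by omega⟩
  refine ⟨?_, (P.L_strictMono hI hK) h2, ?_⟩
  · have := (P.L_strictMono hI hK) h1
    simpa using this
  · have := P.refine_flat' hI hK (n := n)
    simp only [Nat.add_sub_cancel] at h3
    omega

/-- new vertices in the interior of sides of the free arc are flat -/
lemma flatV_new (P : PType) (hI : StrictMono I) (hK : StrictMono K) {n j : ℕ} (hn : n < P.m)
    (h0 : 0 < j) (hj : j < len I K (P.side n)) : FlatV (P.refine hI hK) (P.L I K n + j) := by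
  obtain ⟨j, rfl⟩ : ∃ r, j = r + 1 := ⟨j - 1, by omega⟩
  refine ⟨by omega, (P.loc_lt hI hK hj).2 hn, ?_⟩
  have := P.refine_flat hI hK (n := n) hj
  rw [← add_assoc]
  simp only [Nat.add_sub_cancel]
  exact this.symm

end Pool.Agent.H48.Q1
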